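import Pool.Agent.H61.NC.Defs

/-!
# A pivotal block of the torus has two distinct crossing clusters around it
-/

open MeasureTheory ProbabilityTheory unitInterval

namespace Pool.Agent.H61.NC

open Pool.Agent.H89.Perc

/-- The closed annulus `ball v R` minus the interior of `ball v t`. -/
def Ring (v : Vert) (t R : ℕ) : Set Vert := ball v R \ ball v (t - 1)

/-- Two distinct clusters of the annulus touch both its inner and its outer boundary. -/
def Two (v : Vert) (t R : ℕ) : Set Config :=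
  {ω | ∃ u u' : Vert, u ∈ sphere v t ∧ u' ∈ sphere v t ∧
    (∃ w ∈ sphere v R, Conn ω (Ring v t R) u w) ∧ (∃ w ∈ sphere v R, Conn ω (Ring v t R) u' w) ∧
    ¬ Conn ω (Ring v t R) u u'}

private lemma bt_shift {N : ℕ} (η : Config) (a b : ℤ) {u v : Vert}
    (h : Conn (per N η) Set.univ u v) :
    Conn (per N η) Set.univ (u.1 + a * N, u.2 + b * N) (v.1 + a * N, v.2 + b * N) := by
  have h1 := conn_shift (ω := per N η) (a * N, b * N) Set.univ u v
  have h2 : (fun e => per N η (shiftE (a * N, b * N) e)) = per N η := by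
    funext e
    simp only [per, shiftE]
    rw [Int.add_mul_emod_self_right, Int.add_mul_emod_self_right]
  rw [h2] at h1
  have h3 := h1.1 h
  refine h3.mono_set (Set.subset_univ _)

/-- A long path crosses the annulus. -/
private lemma bt_cross {η : Config} {m : Vert} {t R' : ℕ} (ht : 1 ≤ t) (htR : t ≤ R') {v v' : Vert}
    (hv : v ∈ ball m t) (hv' : v' ∉ ball m R') (h : Conn η Set.univ v v') :
    ∃ x ∈ sphere m t, (∃ w ∈ sphere m R', Conn η (Ring m t R') x w) ∧ Conn η Set.univ v x := by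
  have htR'' : (t : ℤ) ≤ R' := by exact_mod_cast htR
  have ht1 : ((t - 1 : ℕ) : ℤ) = (t : ℤ) - 1 := by push_cast [Nat.cast_sub ht]; ring
  have hsub : ball m t ⊆ ball m R' := by
    intro x hx
    rw [mem_ball] at hx ⊢
    omega
  obtain ⟨w, hw, h1⟩ := h.to_sphere (r := R') (hsub hv) (Or.inl hv')
  rcases htR.eq_or_lt with heq | hlt
  · subst heq
    refine ⟨w, hw, ⟨w, hw, Conn.refl ⟨hw.1, fun h3 => ?_⟩⟩, h1.mono_set (Set.subset_univ _)⟩
    have h4 := hw.2
    have h5 := hw.1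
    rw [mem_ball] at h3 h5
    rw [ht1] at h3
    omega
  have htR' : (t : ℤ) < R' := by exact_mod_cast hlt
  have hwt : w ∉ ball m t := by
    intro hh
    rw [mem_ball] at hh
    have h2 := hw
    simp only [sphere, ball, rect, Set.mem_ofPred_eq] at h2
    omega
  obtain ⟨x, x', h2, h3, h4, h5⟩ := h1.exists_last (T := ball m t) hv hwt
  have h6 := h5.mem_left
  have e1 := h4.fst_le
  have e2 := h4.snd_le
  have hx : x ∈ sphere m t := by
    refine ⟨h2, ?_⟩
    have h7 := h6.2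
    rw [mem_ball] at h2 h7
    omega
  have hring : ∀ y ∈ sphere m t, y ∈ Ring m t R' := by
    intro y hy
    refine ⟨hsub hy.1, ?_⟩
    have h7 := hy.2
    have h8 := hy.1
    rw [mem_ball] at h8 ⊢
    rw [ht1]
    omega
  have h8 : Conn η (Ring m t R') x' w := by
    refine h5.mono_set ?_
    rintro y ⟨⟨-, hy1⟩, hy2⟩
    refine ⟨hy1, fun hy3 => hy2 ?_⟩
    rw [mem_ball] at hy3 ⊢
    rw [ht1] at hy3
    omega
  have h9 : Step η (Ring m t R') x x' := ⟨hring x hx, h8.mem_left, h4.2.2⟩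
  exact ⟨x, hx, ⟨w, hw, h9.conn.trans h8⟩, h3.mono_set (Set.subset_univ _)⟩

/-- All end points of edges of the block. -/
private def bt_B (N R : ℕ) (a b : ℤ) : Set Vert :=
  {v | mid N - R + a * N ≤ v.1 ∧ v.1 ≤ mid N + R + 1 + a * N ∧
    mid N - R + b * N ≤ v.2 ∧ v.2 ≤ mid N + R + 1 + b * N}

private lemma bt_B_shift {N R : ℕ} {a b a' b' : ℤ} {v : Vert} (h : v ∈ bt_B N R a b) :
    ((v.1 + a' * N, v.2 + b' * N) : Vert) ∈ bt_B N R (a + a') (b + b') := by
  simp only [bt_B, Set.mem_ofPred_eq] at h ⊢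
  have e1 : (a + a') * (N : ℤ) = a * N + a' * N := by ring
  have e2 : (b + b') * (N : ℤ) = b * N + b' * N := by ring
  rw [e1, e2]
  omega

/-- An edge of the filled configuration is an edge of the emptied one, or it is in a block. -/
private lemma bt_step {N R : ℕ} {ω : Config} {v v' : Vert}
    (h : Step (per N (fill (blk N R) true ω)) Set.univ v v') :
    Step (per N (fill (blk N R) false ω)) Set.univ v v' ∨
      ∃ a b : ℤ, v ∈ bt_B N R a b ∧ v' ∈ bt_B N R a b := by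
  obtain ⟨-, -, e, he, hω⟩ := h
  by_cases hb : (e.1 % N, e.2.1 % N, e.2.2) ∈ blk N R
  · right
    refine ⟨e.1 / N, e.2.1 / N, ?_⟩
    rw [blk, mem_eRect] at hb
    simp only [src, rect, Set.mem_ofPred_eq] at hb
    have e1 : e.1 = e.1 % N + e.1 / N * N := (Int.emod_add_ediv_mul e.1 N).symm
    have e2 : e.2.1 = e.2.1 % N + e.2.1 / N * N := (Int.emod_add_ediv_mul e.2.1 N).symm
    have hs : src e ∈ bt_B N R (e.1 / N) (e.2.1 / N) := by
      simp only [bt_B, src, Set.mem_ofPred_eq]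
      omega
    have ht : tgt e ∈ bt_B N R (e.1 / N) (e.2.1 / N) := by
      rcases hd : e.2.2 <;> simp only [bt_B, tgt, hd, Set.mem_ofPred_eq, if_true, Bool.false_eq_true,
        if_false] <;> omega
    rcases he with ⟨h1, h2⟩ | ⟨h1, h2⟩
    · rw [h1, h2]; exact ⟨hs, ht⟩
    · rw [h1, h2]; exact ⟨ht, hs⟩
  · left
    refine ⟨Set.mem_univ _, Set.mem_univ _, e, he, ?_⟩
    simp only [per, fill, if_neg hb] at hω ⊢
    exact hω

/-- **A pivotal block has two distinct crossing clusters around it.** -/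
theorem two_of_blockPiv {N R t R' : ℕ} (hRt : R + 1 ≤ t) (htR : t ≤ R') (hN : R + R' + 2 ≤ N)
    {ω : Config} (h : ω ∈ BlockPiv N R) : per N ω ∈ Two (mid N, mid N) t R' := by
  obtain ⟨⟨u, a, b, ha, hc⟩, hno⟩ := h
  have hNR : (R : ℤ) + R' + 2 ≤ N := by exact_mod_cast hN
  have hRt' : (R : ℤ) + 1 ≤ t := by exact_mod_cast hRt
  have htR' : (t : ℤ) ≤ R' := by exact_mod_cast htR
  set η0 := per N (fill (blk N R) false ω) with hη0
  set η1 := per N (fill (blk N R) true ω) with hη1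
  -- an excursion which winds
  have hexc : ∃ v ∈ bt_B N R 0 0, ∃ a b : ℤ, ∃ v' ∈ bt_B N R a b, a ≠ 0 ∧
      Conn η0 Set.univ v v' := by
    by_contra hnone
    push Not at hnone
    have hnone' : ∀ (a₁ b₁ a₂ b₂ : ℤ) (v v' : Vert), v ∈ bt_B N R a₁ b₁ → v' ∈ bt_B N R a₂ b₂ →
        Conn η0 Set.univ v v' → a₁ = a₂ := by
      intro a₁ b₁ a₂ b₂ v v' h1 h2 h3
      have h4 := bt_B_shift (a' := -a₁) (b' := -b₁) h1
      have h5 := bt_B_shift (a' := -a₁) (b' := -b₁) h2
      have h6 := bt_shift (fill (blk N R) false ω) (-a₁) (-b₁) h3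
      rw [add_neg_cancel, add_neg_cancel] at h4
      by_contra hne
      exact hnone _ h4 _ _ _ h5 (by intro h; apply hne; linarith) h6
    have key : Conn η0 Set.univ u (u.1 + a * N, u.2 + b * N) ∨ ∃ a₁ b₁ b₂ : ℤ,
        ∃ v₁ ∈ bt_B N R a₁ b₁, ∃ v₂ ∈ bt_B N R a₁ b₂, Conn η0 Set.univ u v₁ ∧
          Conn η0 Set.univ v₂ (u.1 + a * N, u.2 + b * N) := by
      refine hc.induction_right (P := fun w => Conn η0 Set.univ u w ∨ ∃ a₁ b₁ b₂ : ℤ,
        ∃ v₁ ∈ bt_B N R a₁ b₁, ∃ v₂ ∈ bt_B N R a₁ b₂, Conn η0 Set.univ u v₁ ∧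
          Conn η0 Set.univ v₂ w) (Or.inl (Conn.refl (Set.mem_univ _))) ?_
      intro w w' _ hs ih
      rcases bt_step hs with h1 | ⟨a₂, b₂, h1, h2⟩
      · rcases ih with ih | ⟨a₁, b₁, b₂, v₁, hv₁, v₂, hv₂, h2, h3⟩
        · exact Or.inl (ih.tail h1)
        · exact Or.inr ⟨a₁, b₁, b₂, v₁, hv₁, v₂, hv₂, h2, h3.tail h1⟩
      · rcases ih with ih | ⟨a₁, b₁, b₂', v₁, hv₁, v₂, hv₂, h3, h4⟩
        · exact Or.inr ⟨a₂, b₂, b₂, w, h1, w', h2, ih, Conn.refl (Set.mem_univ _)⟩
        · have := hnone' _ _ _ _ _ _ hv₂ h1 h4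
          subst this
          exact Or.inr ⟨a₁, b₁, b₂, v₁, hv₁, w', h2, h3, Conn.refl (Set.mem_univ _)⟩
    rcases key with h1 | ⟨a₁, b₁, b₂, v₁, hv₁, v₂, hv₂, h1, h2⟩
    · exact hno ⟨u, a, b, ha, h1⟩
    · have h3 := bt_shift (fill (blk N R) false ω) a b h1
      have h4 := hnone' _ _ _ _ _ _ hv₂ (bt_B_shift (a' := a) (b' := b) hv₁) (h2.trans h3)
      exact ha (by linarith)
  obtain ⟨v, hv, a', b', v', hv', ha', hvv⟩ := hexc
  -- geometry
  have habs : (N : ℤ) ≤ |a'| * N := by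
    have h1 : (1 : ℤ) ≤ |a'| := Int.one_le_abs ha'
    have h2 : (0 : ℤ) ≤ N := by positivity
    nlinarith
  have hball : ∀ w ∈ bt_B N R 0 0, w ∈ ball (mid N, mid N) t := by
    intro w hw
    simp only [bt_B, zero_mul, add_zero, Set.mem_ofPred_eq] at hw
    rw [mem_ball]
    simp only
    omega
  have hfar : ∀ (c : ℤ) (b'' : ℤ), |c| = |a'| → ∀ w ∈ bt_B N R c b'', w ∉ ball (mid N, mid N) R' := by
    intro c b'' hcc w hw hw'
    simp only [bt_B, Set.mem_ofPred_eq] at hw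
    rw [mem_ball] at hw'
    simp only at hw'
    have h1 : |c * (N : ℤ)| = |a'| * N := by
      rw [abs_mul, hcc, abs_of_nonneg (by positivity : (0 : ℤ) ≤ N)]
    rcases abs_cases (c * (N : ℤ)) with h2 | h2 <;> omega
  have hcongr : ∀ e : Edge, src e ∈ Ring (mid N, mid N) t R' →
      per N ω e = η0 e := by
    intro e he
    have ht1 : ((t - 1 : ℕ) : ℤ) = (t : ℤ) - 1 := by
      push_cast [Nat.cast_sub (show 1 ≤ t by omega)]; ring
    have hb : (e.1 % N, e.2.1 % N, e.2.2) ∉ blk N R := by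
      intro hb
      rw [blk, mem_eRect] at hb
      simp only [src, rect, Set.mem_ofPred_eq] at hb
      have e1 : e.1 = e.1 % N + e.1 / N * N := (Int.emod_add_ediv_mul e.1 N).symm
      have e2 : e.2.1 = e.2.1 % N + e.2.1 / N * N := (Int.emod_add_ediv_mul e.2.1 N).symm
      obtain ⟨h1, h2⟩ := he
      simp only [mem_ball, src, ht1] at h1 h2
      have hz : ∀ k : ℤ, |k * (N : ℤ)| < N → k = 0 := by
        intro k hk
        by_contra hk0
        have h3 : (1 : ℤ) ≤ |k| := Int.one_le_abs hk0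
        rw [abs_mul, abs_of_nonneg (by positivity : (0 : ℤ) ≤ N)] at hk
        nlinarith
      have k1 : e.1 / N = 0 := hz _ (abs_lt.2 ⟨by omega, by omega⟩)
      have k2 : e.2.1 / N = 0 := hz _ (abs_lt.2 ⟨by omega, by omega⟩)
      rw [k1, zero_mul] at e1
      rw [k2, zero_mul] at e2
      apply h2
      omega
    simp only [hη0, per, fill, if_neg hb]
  have hcon : ∀ x y : Vert, Conn (per N ω) (Ring (mid N, mid N) t R') x y →
      Conn η0 Set.univ x y := fun x y hxy =>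
    (hxy.congr fun e h1 _ => hcongr e h1).mono_set (Set.subset_univ _)
  have hcon' : ∀ x y : Vert, Conn η0 (Ring (mid N, mid N) t R') x y →
      Conn (per N ω) (Ring (mid N, mid N) t R') x y := fun x y hxy =>
    hxy.congr fun e h1 _ => (hcongr e h1).symm
  -- the second cluster is the first one translated
  have hv'' := bt_B_shift (a' := -a') (b' := -b') hv'
  rw [add_neg_cancel, add_neg_cancel] at hv''
  have hvm := bt_B_shift (a' := -a') (b' := -b') hv
  have h2 := bt_shift (fill (blk N R) false ω) (-a') (-b') hvv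
  obtain ⟨x, hx, ⟨w, hw, hxw⟩, hvx⟩ := bt_cross (by omega) htR (hball v hv)
    (hfar a' b' rfl v' hv') hvv
  obtain ⟨x', hx', ⟨w', hw', hxw'⟩, hvx'⟩ := bt_cross (by omega) htR (hball _ hv'')
    (hfar (0 + -a') (0 + -b') (by rw [zero_add, abs_neg]) _ hvm) h2.symm
  refine ⟨x, x', hx, hx', ⟨w, hw, hcon' _ _ hxw⟩, ⟨w', hw', hcon' _ _ hxw'⟩, fun hxx => ?_⟩
  have h3 := (hvx'.trans (hcon _ _ hxx).symm).trans hvx.symm
  have h4 := h3.trans hvv
  refine hno ⟨(v'.1 + -a' * N, v'.2 + -b' * N), a', b', ha', ?_⟩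
  simp only
  rw [show v'.1 + -a' * (N : ℤ) + a' * N = v'.1 by ring,
    show v'.2 + -b' * (N : ℤ) + b' * N = v'.2 by ring]
  exact h4

end Pool.Agent.H61.NC
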