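import Pool.Agent.H89.Perc.TorusSym
import Pool.Agent.H89.Perc.RSW

/-!
# Near-critical percolation on the torus: definitions and interfaces

`q` is the density of open edges, `N` the side of the torus.  `Wind N` (horizontal winding) is the
increasing event whose probability is differentiated; all edges of the torus with the same
direction have the same influence on it, so there are no boundary edges.
-/

open MeasureTheory ProbabilityTheory unitInterval

namespace Pool.Agent.H61.NC

open Pool.Agent.H89.Perc

/-- Close the edge `e`. -/
def close (e : Edge) (ω : Config) : Config := Function.update ω e false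

/-- Four-arm event of the edge `e`: with `e` closed, its two endpoints are joined to the sphere of
radius `r` around `src e` and not joined to each other, all inside the ball. -/
def A4 (e : Edge) (r : ℕ) : Set Config :=
  {ω | (∃ u ∈ sphere (src e) r, Conn (close e ω) (ball (src e) r) (src e) u) ∧
    (∃ u ∈ sphere (src e) r, Conn (close e ω) (ball (src e) r) (tgt e) u) ∧
    ¬ Conn (close e ω) (ball (src e) r) (src e) (tgt e)}

/-- Four-arm probability (for a horizontal edge; it is the same for all edges). -/
noncomputable def a4 (q : I) (r : ℕ) : ℝ := Pr q (A4 (0, 0, false) r)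

/-- The middle of the fundamental square of the torus. -/
def mid (N : ℕ) : ℤ := (N : ℤ) / 2

/-- The edge with direction `d` in the middle of the torus. -/
def ctr (N : ℕ) (d : Bool) : Edge := (mid N, mid N, d)

/-- The influence of an edge of direction `d` on the winding event. -/
noncomputable def sT (q : I) (N : ℕ) (d : Bool) : ℝ := pivot q (Wind N) (ctr N d)

/-- The block of radius `r` in the middle of the torus. -/
noncomputable def blk (N r : ℕ) : Finset Edge :=
  eRect (mid N - r) (mid N + r) (mid N - r) (mid N + r)

/-- Give all edges of `s` the value `b`. -/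
noncomputable def fill (s : Finset Edge) (b : Bool) (ω : Config) : Config := by
  classical exact fun e => if e ∈ s then b else ω e

/-- The block of radius `r` is pivotal for the winding event. -/
def BlockPiv (N r : ℕ) : Set Config :=
  {ω | fill (blk N r) true ω ∈ Wind N ∧ fill (blk N r) false ω ∉ Wind N}

/-- Box-crossing regime: open and dual crossings of `4 : 1` rectangles of all scales up to `n`
have probability at least `c`. -/
def RSWreg (c : ℝ) (n : ℕ) (q : I) : Prop :=
  ∀ m : ℕ, 1 ≤ m → m ≤ n → c ≤ Pr q {ω | HCross ω 0 (4 * m) 0 m} ∧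
    c ≤ Pr (σ q) {ω | HCross ω 0 (4 * m) 0 m}

/-- Interface 1 (separation and gluing, torus version). -/
def GLTorus : Prop :=
  ∀ c : ℝ, 0 < c → ∃ C : ℝ, 0 < C ∧ ∀ (N r : ℕ) (q : I) (d : Bool), 1 ≤ r → 64 * r ≤ N →
    RSWreg c N q → a4 q r * Pr q (BlockPiv N (16 * r)) ≤ C * sT q N d

/-- Interface 2 (block OSSS on the torus). -/
def BlockLow : Prop :=
  ∀ c : ℝ, 0 < c → ∃ C δ : ℝ, 0 < C ∧ 0 < δ ∧ ∀ (N r : ℕ) (q : I), 1 ≤ r → 4 * r ≤ N →
    RSWreg c N q → ((r : ℝ) / N) ^ (2 - δ) ≤ C * Pr q (BlockPiv N r)

end Pool.Agent.H61.NC
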