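import Pool.Agent.H61.NC.Defs

/-!
# Basic properties of the four-arm event, in the plane and on the torus
-/

open MeasureTheory ProbabilityTheory unitInterval

namespace Pool.Agent.H61.NC

open Pool.Agent.H89.Perc

/-- Reduction of an edge modulo `N`. -/
def modE (N : ℕ) (e : Edge) : Edge := (e.1 % N, e.2.1 % N, e.2.2)

/-- The four-arm event of an edge of the torus. -/
def A4T (N : ℕ) (f : Edge) (r : ℕ) : Set Config := {ω | per N ω ∈ A4 f r}

private theorem a4Basic_close_apply_ne {e f : Edge} (h : f ≠ e) (ω : Config) :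
    close e ω f = ω f := by
  unfold close
  rw [Function.update_of_ne h]

private theorem a4Basic_close_apply_self (e : Edge) (ω : Config) : close e ω e = false := by
  unfold close
  rw [Function.update_self]

private theorem a4Basic_close_congr {e f : Edge} {ω ω' : Config} (h : ω f = ω' f) :
    close e ω f = close e ω' f := by
  by_cases hfe : f = e
  · subst hfe
    rw [a4Basic_close_apply_self, a4Basic_close_apply_self]
  · rw [a4Basic_close_apply_ne hfe, a4Basic_close_apply_ne hfe, h]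

theorem localOn_A4 (e : Edge) (r : ℕ) :
    LocalOn (eRect (e.1 - r) (e.1 + r) (e.2.1 - r) (e.2.1 + r)) (A4 e r) := by
  have key : ∀ ω ω' : Config, (∀ f ∈ eRect (e.1 - r) (e.1 + r) (e.2.1 - r) (e.2.1 + r),
      ω f = ω' f) → ∀ u v : Vert, Conn (close e ω) (ball (src e) r) u v →
        Conn (close e ω') (ball (src e) r) u v := by
    intro ω ω' h u v hc
    exact Conn.congr (fun f hf _ => a4Basic_close_congr (h f (mem_eRect.2 hf))) hc
  rintro ω ω' h ⟨⟨u, hu, h1⟩, ⟨u', hu', h2⟩, h3⟩
  exact ⟨⟨u, hu, key _ _ h _ _ h1⟩, ⟨u', hu', key _ _ h _ _ h2⟩,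
    fun h4 => h3 (key _ _ (fun f hf => (h f hf).symm) _ _ h4)⟩

private theorem a4Basic_tgt_mem (e : Edge) {r : ℕ} (h1 : 1 ≤ r) : tgt e ∈ ball (src e) r := by
  obtain ⟨x, y, d⟩ := e
  cases d
  · simp only [mem_ball, src, tgt, Bool.false_eq_true, if_false]
    omega
  · simp only [mem_ball, src, tgt, if_true]
    omega

theorem A4_anti {e : Edge} {r r' : ℕ} (h1 : 1 ≤ r) (h : r ≤ r') : A4 e r' ⊆ A4 e r := by
  rcases h.eq_or_lt with h0 | h0
  · subst h0; exact le_rfl
  have hsub : ball (src e) r ⊆ ball (src e) r' := by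
    intro w hw
    simp only [mem_ball] at hw ⊢
    omega
  have hout : ∀ u ∈ sphere (src e) r', u ∉ ball (src e) r := by
    rintro u ⟨hu1, hu2⟩ hu3
    simp only [mem_ball] at hu1 hu3
    omega
  rintro ω ⟨⟨u, hu, h2⟩, ⟨u', hu', h3⟩, h4⟩
  obtain ⟨x, hx, hcx⟩ := h2.to_sphere (v := src e) (r := r) self_mem_ball (Or.inl (hout u hu))
  obtain ⟨x', hx', hcx'⟩ := h3.to_sphere (v := src e) (r := r) (a4Basic_tgt_mem e h1)
    (Or.inl (hout u' hu'))
  exact ⟨⟨x, hx, hcx.mono_set Set.inter_subset_right⟩,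
    ⟨x', hx', hcx'.mono_set Set.inter_subset_right⟩, fun h5 => h4 (h5.mono_set hsub)⟩

private theorem a4Basic_shift (v : Vert) (d : Bool) (r : ℕ) :
    {ω : Config | (fun f => ω (shiftE v f)) ∈ A4 (0, 0, d) r} = A4 (v.1, v.2, d) r := by
  have hcl : ∀ ω : Config, close (0, 0, d) (fun f => ω (shiftE v f)) =
      fun f => close (v.1, v.2, d) ω (shiftE v f) := by
    intro ω
    funext f
    by_cases hf : f = (0, 0, d)
    · subst hf
      have : shiftE v (0, 0, d) = (v.1, v.2, d) := by simp [shiftE]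
      rw [this, a4Basic_close_apply_self, a4Basic_close_apply_self]
    · have : shiftE v f ≠ (v.1, v.2, d) := by
        intro h
        apply hf
        apply shiftE_injective v
        rw [h]
        simp [shiftE]
      rw [a4Basic_close_apply_ne hf, a4Basic_close_apply_ne this]
  have hb : {w : Vert | (w.1 - v.1, w.2 - v.2) ∈ ball (src (0, 0, d)) r} =
      ball (src (v.1, v.2, d)) r := by
    ext w
    simp only [Set.mem_ofPred_eq, mem_ball, src]
    omega
  have key : ∀ (ω : Config) (a b : Vert),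
      Conn (close (0, 0, d) (fun f => ω (shiftE v f))) (ball (src (0, 0, d)) r) a b ↔
      Conn (close (v.1, v.2, d) ω) (ball (src (v.1, v.2, d)) r) (a.1 + v.1, a.2 + v.2)
        (b.1 + v.1, b.2 + v.2) := by
    intro ω a b
    rw [hcl, conn_shift, hb]
  have hs : (((src ((0 : ℤ), (0 : ℤ), d)).1 + v.1, (src ((0 : ℤ), (0 : ℤ), d)).2 + v.2) : Vert) =
      src (v.1, v.2, d) := by simp [src]
  have ht : (((tgt ((0 : ℤ), (0 : ℤ), d)).1 + v.1, (tgt ((0 : ℤ), (0 : ℤ), d)).2 + v.2) : Vert) =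
      tgt (v.1, v.2, d) := by
    cases d <;> simp [tgt, add_comm]
  have hex : ∀ (ω : Config) (a : Vert),
      (∃ u ∈ sphere (src (0, 0, d)) r,
        Conn (close (0, 0, d) (fun f => ω (shiftE v f))) (ball (src (0, 0, d)) r) a u) ↔
      ∃ u ∈ sphere (src (v.1, v.2, d)) r,
        Conn (close (v.1, v.2, d) ω) (ball (src (v.1, v.2, d)) r) (a.1 + v.1, a.2 + v.2) u := by
    intro ω a
    constructor
    · rintro ⟨u, hu, hc⟩
      refine ⟨(u.1 + v.1, u.2 + v.2), ?_, (key ω a u).1 hc⟩
      obtain ⟨hu1, hu2⟩ := hu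
      simp only [sphere, Set.mem_ofPred_eq, mem_ball, src] at hu1 hu2 ⊢
      omega
    · rintro ⟨u, hu, hc⟩
      refine ⟨(u.1 - v.1, u.2 - v.2), ?_, (key ω a _).2 (by simpa using hc)⟩
      obtain ⟨hu1, hu2⟩ := hu
      simp only [sphere, Set.mem_ofPred_eq, mem_ball, src] at hu1 hu2 ⊢
      omega
  ext ω
  simp only [A4, Set.mem_ofPred_eq]
  rw [hex, hex, key, hs, ht]

private theorem a4Basic_swap (r : ℕ) :
    {ω : Config | (fun f => ω (swapE f)) ∈ A4 (0, 0, true) r} = A4 (0, 0, false) r := by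
  have hcl : ∀ ω : Config, close (0, 0, true) (fun f => ω (swapE f)) =
      fun f => close (0, 0, false) ω (swapE f) := by
    intro ω
    funext f
    by_cases hf : f = (0, 0, true)
    · subst hf
      have : swapE (0, 0, true) = (0, 0, false) := by simp [swapE]
      rw [this, a4Basic_close_apply_self, a4Basic_close_apply_self]
    · have : swapE f ≠ (0, 0, false) := by
        intro h
        apply hf
        apply swapE_injective
        rw [h]
        simp [swapE]
      rw [a4Basic_close_apply_ne hf, a4Basic_close_apply_ne this]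
  have hb : {w : Vert | (w.2, w.1) ∈ ball (src (0, 0, true)) r} =
      ball (src (0, 0, false)) r := by
    ext w
    simp only [Set.mem_ofPred_eq, mem_ball, src]
    omega
  have key : ∀ (ω : Config) (a b : Vert),
      Conn (close (0, 0, true) (fun f => ω (swapE f))) (ball (src (0, 0, true)) r) a b ↔
      Conn (close (0, 0, false) ω) (ball (src (0, 0, false)) r) (a.2, a.1) (b.2, b.1) := by
    intro ω a b
    rw [hcl, conn_swap, hb]
  have hs : (((src ((0 : ℤ), (0 : ℤ), true)).2, (src ((0 : ℤ), (0 : ℤ), true)).1) : Vert) =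
      src (0, 0, false) := by simp [src]
  have ht : (((tgt ((0 : ℤ), (0 : ℤ), true)).2, (tgt ((0 : ℤ), (0 : ℤ), true)).1) : Vert) =
      tgt (0, 0, false) := by
    simp [tgt]
  have hex : ∀ (ω : Config) (a : Vert),
      (∃ u ∈ sphere (src (0, 0, true)) r,
        Conn (close (0, 0, true) (fun f => ω (swapE f))) (ball (src (0, 0, true)) r) a u) ↔
      ∃ u ∈ sphere (src (0, 0, false)) r,
        Conn (close (0, 0, false) ω) (ball (src (0, 0, false)) r) (a.2, a.1) u := by
    intro ω a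
    constructor
    · rintro ⟨u, hu, hc⟩
      refine ⟨(u.2, u.1), ?_, (key ω a u).1 hc⟩
      obtain ⟨hu1, hu2⟩ := hu
      simp only [sphere, Set.mem_ofPred_eq, mem_ball, src] at hu1 hu2 ⊢
      omega
    · rintro ⟨u, hu, hc⟩
      refine ⟨(u.2, u.1), ?_, (key ω a _).2 (by simpa using hc)⟩
      obtain ⟨hu1, hu2⟩ := hu
      simp only [sphere, Set.mem_ofPred_eq, mem_ball, src] at hu1 hu2 ⊢
      omega
  ext ω
  simp only [A4, Set.mem_ofPred_eq]
  rw [hex, hex, key, hs, ht]

/-- The four-arm probability does not depend on the edge (translations and the reflection which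
exchanges the coordinates). -/
theorem Pr_A4 (q : I) (e : Edge) (r : ℕ) : Pr q (A4 e r) = a4 q r := by
  obtain ⟨x, y, d⟩ := e
  have h1 : Pr q (A4 (x, y, d) r) = Pr q (A4 (0, 0, d) r) := by
    have := a4Basic_shift (x, y) d r
    simp only at this
    rw [← this, Pr_comp (localOn_A4 (0, 0, d) r) (shiftE_injective (x, y)).injOn]
  rw [h1, a4]
  cases d
  · rfl
  · rw [← a4Basic_swap r, Pr_comp (localOn_A4 (0, 0, true) r) swapE_injective.injOn]

theorem a4_nonneg (q : I) (r : ℕ) : 0 ≤ a4 q r := Pr_nonneg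

theorem a4_le_one (q : I) (r : ℕ) : a4 q r ≤ 1 := Pr_le_one

theorem a4_anti (q : I) {r r' : ℕ} (h1 : 1 ≤ r) (h : r ≤ r') : a4 q r' ≤ a4 q r :=
  Pr_mono (A4_anti h1 h)

private theorem a4Basic_cyl (q : I) (h1 : 1 / 4 ≤ (q : ℝ)) (h2 : (q : ℝ) ≤ 3 / 4)
    (b : Config) (s : Finset Edge) :
    (1 / 4 : ℝ) ^ s.card ≤ Pr q {ω | ∀ e ∈ s, ω e = b e} := by
  classical
  induction s using Finset.induction_on with
  | empty =>
    have : {ω : Config | ∀ e ∈ (∅ : Finset Edge), ω e = b e} = Set.univ := by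
      ext ω; simp
    rw [this, Pr_univ]
    simp
  | @insert a s ha ih =>
    have hloc : LocalOn (insert a s) {ω : Config | ∀ e ∈ insert a s, ω e = b e} := by
      intro ω ω' h hω e he
      rw [← h e he]
      exact hω e he
    have hne : ∀ e ∈ s, e ≠ a := fun e he hea => ha (hea ▸ he)
    have hup : ∀ c : Bool, c = b a →
        {ω : Config | Function.update ω a c ∈ {ω : Config | ∀ e ∈ insert a s, ω e = b e}} =
          {ω | ∀ e ∈ s, ω e = b e} := by
      intro c hc
      ext ω
      simp only [Set.mem_ofPred_eq, Finset.mem_insert, forall_eq_or_imp, Function.update_self]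
      constructor
      · rintro ⟨-, h⟩ e he
        have := h e he
        rwa [Function.update_of_ne (hne e he)] at this
      · intro h
        refine ⟨hc, fun e he => ?_⟩
        rw [Function.update_of_ne (hne e he)]
        exact h e he
    rw [Pr_eq_update hloc a, Finset.card_insert_of_notMem ha, pow_succ]
    have hn : ∀ A : Set Config, 0 ≤ Pr q A := fun A => Pr_nonneg
    have hp : (0 : ℝ) ≤ (1 / 4 : ℝ) ^ s.card := by positivity
    cases hb : b a
    · rw [hup false hb.symm]
      have h3 := hn {ω | Function.update ω a true ∈ {ω : Config | ∀ e ∈ insert a s, ω e = b e}}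
      have h4 : 0 ≤ (q : ℝ) * Pr q {ω | Function.update ω a true ∈
          {ω : Config | ∀ e ∈ insert a s, ω e = b e}} := mul_nonneg (by linarith) h3
      have h5 : (1 / 4 : ℝ) * (1 / 4 : ℝ) ^ s.card ≤ (1 - (q : ℝ)) *
          Pr q {ω | ∀ e ∈ s, ω e = b e} :=
        mul_le_mul (by linarith) ih hp (by linarith)
      linarith
    · rw [hup true hb.symm]
      have h3 := hn {ω | Function.update ω a false ∈ {ω : Config | ∀ e ∈ insert a s, ω e = b e}}
      have h4 : 0 ≤ (1 - (q : ℝ)) * Pr q {ω | Function.update ω a false ∈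
          {ω : Config | ∀ e ∈ insert a s, ω e = b e}} := mul_nonneg (by linarith) h3
      have h5 : (1 / 4 : ℝ) * (1 / 4 : ℝ) ^ s.card ≤ (q : ℝ) *
          Pr q {ω | ∀ e ∈ s, ω e = b e} :=
        mul_le_mul (by linarith) ih hp (by linarith)
      linarith

/-- An explicit configuration in the ball of radius `1`. -/
theorem a4_one (q : I) (h1 : 1 / 4 ≤ (q : ℝ)) (h2 : (q : ℝ) ≤ 3 / 4) :
    (1 / 4 : ℝ) ^ 24 ≤ a4 q 1 := by
  set b : Config := fun f => decide (f = ((-1 : ℤ), (0 : ℤ), false)) with hb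
  have hcard : (eRect (-1) 1 (-1) 1).card = 18 := by
    simp [eRect]
  have hle := a4Basic_cyl q h1 h2 b (eRect (-1) 1 (-1) 1)
  rw [hcard] at hle
  have hpow : (1 / 4 : ℝ) ^ 24 ≤ (1 / 4 : ℝ) ^ 18 :=
    pow_le_pow_of_le_one (by norm_num) (by norm_num) (by norm_num)
  refine hpow.trans (hle.trans (Pr_mono ?_))
  intro ω hω
  have hball : ∀ w : Vert, w ∈ ball (src ((0 : ℤ), (0 : ℤ), false)) 1 ↔ w ∈ rect (-1) 1 (-1) 1 := by
    intro w
    simp only [mem_ball, src, rect, Set.mem_ofPred_eq, Nat.cast_one]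
    omega
  have hopen : ω (-1, 0, false) = true := by
    rw [hω (-1, 0, false) (mem_eRect.2 (by simp [src, rect]))]
    simp [hb]
  have hclosed : ∀ f : Edge, src f ∈ ball (src ((0 : ℤ), (0 : ℤ), false)) 1 → ω f = true →
      f = (-1, 0, false) := by
    intro f hf ho
    rw [hω f (mem_eRect.2 ((hball _).1 hf))] at ho
    simpa [hb] using ho
  refine ⟨⟨(-1, 0), ?_, ?_⟩, ⟨(1, 0), ?_, ?_⟩, ?_⟩
  · refine ⟨(hball _).2 (by simp [rect]), Or.inl (by simp [src])⟩
  · refine Step.conn ⟨(hball _).2 (by simp [src, rect]), (hball _).2 (by simp [rect]),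
      (-1, 0, false), Or.inr ⟨by simp [src, tgt], by simp [src]⟩, ?_⟩
    rw [a4Basic_close_apply_ne (by simp)]
    exact hopen
  · refine ⟨(hball _).2 (by simp [rect]), Or.inr (Or.inl (by simp [src]))⟩
  · have : tgt ((0 : ℤ), (0 : ℤ), false) = (1, 0) := by simp [tgt]
    rw [this]
    exact Conn.refl ((hball _).2 (by simp [rect]))
  · intro hc
    have hP : (tgt ((0 : ℤ), (0 : ℤ), false)).1 ≤ 0 := by
      refine hc.induction_right (P := fun w => w.1 ≤ 0) (by simp [src]) ?_
      intro a c _ hac _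
      obtain ⟨ha, hc', f, hf, ho⟩ := hac
      have hfe : f ≠ (0, 0, false) := by
        intro h
        rw [h, a4Basic_close_apply_self] at ho
        exact absurd ho (by decide)
      rw [a4Basic_close_apply_ne hfe] at ho
      have hsrc : src f ∈ ball (src ((0 : ℤ), (0 : ℤ), false)) 1 := by
        rcases hf with ⟨h3, _⟩ | ⟨_, h3⟩
        · rw [← h3]; exact ha
        · rw [← h3]; exact hc'
      have hff := hclosed f hsrc ho
      subst hff
      rcases hf with ⟨_, h3⟩ | ⟨_, h3⟩
      · rw [h3]; simp [tgt]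
      · rw [h3]; simp [src]
    simp [tgt] at hP

theorem localOn_A4T (N : ℕ) (f : Edge) (r : ℕ) :
    LocalOn ((eRect (f.1 - r) (f.1 + r) (f.2.1 - r) (f.2.1 + r)).image (modE N)) (A4T N f r) := by
  intro ω ω' h hω
  refine localOn_A4 f r _ _ (fun e he => ?_) hω
  exact h _ (Finset.mem_image_of_mem (modE N) he)

private theorem a4Basic_int {N : ℕ} {a b c : ℤ} {r : ℕ} (h : 2 * r < N) (ha1 : c - r ≤ a)
    (ha2 : a ≤ c + r) (hb1 : c - r ≤ b) (hb2 : b ≤ c + r) (hab : a % N = b % N) : a = b := by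
  have h1 : (N : ℤ) ∣ a - b := Int.ModEq.dvd (show b ≡ a [ZMOD N] from hab.symm)
  have h2 : |a - b| < N := by
    rw [abs_lt]
    constructor <;> omega
  have h3 := Int.eq_zero_of_abs_lt_dvd h1 h2
  omega

theorem Pr_A4T (q : I) {N : ℕ} {f : Edge} (hf : f ∈ tEdges N) {r : ℕ} (h : 2 * r < N) :
    Pr q (A4T N f r) = a4 q r := by
  have hinj : Set.InjOn (modE N) (eRect (f.1 - r) (f.1 + r) (f.2.1 - r) (f.2.1 + r)) := by
    intro e he e' he' hee
    rw [Finset.mem_coe, mem_eRect] at he he'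
    simp only [src, rect, Set.mem_ofPred_eq] at he he'
    simp only [modE, Prod.mk.injEq] at hee
    obtain ⟨x, y, d⟩ := e
    obtain ⟨x', y', d'⟩ := e'
    simp only at he he' hee
    obtain ⟨hx, hy, hd⟩ := hee
    rw [a4Basic_int h he.1 he.2.1 he'.1 he'.2.1 hx,
      a4Basic_int h he.2.2.1 he.2.2.2 he'.2.2.1 he'.2.2.2 hy, hd]
  rw [← Pr_A4 q f r, ← Pr_comp (localOn_A4 f r) hinj]
  rfl

end Pool.Agent.H61.NC
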