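import Pool.Agent.H61.NC.Second
import Pool.Agent.H61.NC.Defs

/-!
# Translation invariance on the torus: sums over pairs of edges
-/

open MeasureTheory ProbabilityTheory unitInterval

namespace Pool.Agent.H61.NC

open Pool.Agent.H89.Perc

theorem ctr_mem {N : ℕ} (hN : 1 ≤ N) (d : Bool) : ctr N d ∈ tEdges N := by
  simp only [tEdges, ctr, mid, Finset.mem_product, Finset.mem_Ico, Finset.mem_univ, and_true]
  omega

private theorem tSym_sum (N : ℕ) (G : Bool → ℝ) :
    ∑ e ∈ tEdges N, G e.2.2 = (N : ℝ) ^ 2 * ∑ d : Bool, G d := by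
  unfold tEdges
  rw [Finset.sum_product]
  simp only [Finset.sum_product]
  rw [Finset.sum_const, Finset.sum_const, Int.card_Ico]
  simp only [sub_zero, Int.toNat_natCast, nsmul_eq_mul]
  ring

theorem sum_pivot {N : ℕ} (hN : 1 ≤ N) (q : I) :
    ∑ e ∈ tEdges N, pivot q (Wind N) e = (N : ℝ) ^ 2 * (sT q N false + sT q N true) := by
  have h1 : ∑ e ∈ tEdges N, pivot q (Wind N) e = ∑ e ∈ tEdges N, sT q N e.2.2 := by
    refine Finset.sum_congr rfl fun e he => ?_
    exact pivot_wind hN q he (ctr_mem hN e.2.2) rfl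
  rw [h1, tSym_sum N (fun d => sT q N d)]
  simp only [Fintype.sum_bool]
  ring

theorem sT_nonneg (q : I) (N : ℕ) (d : Bool) : 0 ≤ sT q N d := by
  unfold sT pivot
  rw [sub_nonneg]
  refine Pr_mono ?_
  intro ω hω
  refine incr_wind N _ _ ?_ hω
  intro e he
  by_cases h : e = ctr N d
  · subst h; simp
  · rw [Function.update_of_ne h] at he ⊢
    exact he

private theorem tSym_mem_upd {A : Set Config} {e f : Edge} {a b : Bool} {ω : Config} :
    ω ∈ upd (upd A e a) f b ↔ Function.update (Function.update ω f b) e a ∈ A := Iff.rfl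

private theorem tSym_upd {N : ℕ} (hN : 1 ≤ N) (z : Vert) {e f : Edge} (he : e ∈ tEdges N)
    (hf : f ∈ tEdges N) (a b : Bool) (ω : Config) :
    (fun x => ω (torusSym_tau N z x)) ∈ upd (upd (Wind N) e a) f b ↔
      ω ∈ upd (upd (Wind N) (torusSym_tau N z e) a) (torusSym_tau N z f) b := by
  rw [tSym_mem_upd, tSym_mem_upd, ← torusSym_wind N z
    (Function.update (Function.update ω (torusSym_tau N z f) b) (torusSym_tau N z e) a)]
  have key : ∀ x ∈ tEdges N,
      Function.update (Function.update ω (torusSym_tau N z f) b) (torusSym_tau N z e) a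
        (torusSym_tau N z x) =
      Function.update (Function.update (fun x => ω (torusSym_tau N z x)) f b) e a x := by
    intro x hx
    by_cases hxe : x = e
    · subst hxe
      rw [Function.update_self, Function.update_self]
    · have h2 : torusSym_tau N z x ≠ torusSym_tau N z e := fun h =>
        hxe (torusSym_tau_injOn N z hx he h)
      rw [Function.update_of_ne h2, Function.update_of_ne hxe]
      by_cases hxf : x = f
      · subst hxf
        rw [Function.update_self, Function.update_self]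
      · have h3 : torusSym_tau N z x ≠ torusSym_tau N z f := fun h =>
          hxf (torusSym_tau_injOn N z hx hf h)
        rw [Function.update_of_ne h3, Function.update_of_ne hxf]
  exact ⟨fun h1 => localOn_wind hN _ _ (fun x hx => (key x hx).symm) h1,
    fun h1 => localOn_wind hN _ _ key h1⟩

private theorem tSym_localOn {N : ℕ} (hN : 1 ≤ N) (e f : Edge) :
    LocalOn (tEdges N) (Joint (Wind N) e f) := by
  have hl : ∀ (A : Set Config), LocalOn (tEdges N) A → ∀ (e : Edge) (b : Bool),
      LocalOn (tEdges N) (upd A e b) := by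
    intro A hA e b ω ω' h hω
    refine hA _ _ (fun x hx => ?_) hω
    by_cases hxe : x = e
    · subst hxe; simp
    · rw [Function.update_of_ne hxe, Function.update_of_ne hxe]
      exact h x hx
  have hl2 : ∀ (a b : Bool), LocalOn (tEdges N) (upd (upd (Wind N) e a) f b) := fun a b =>
    hl _ (hl _ (localOn_wind hN) e a) f b
  unfold Joint
  rw [Set.sdiff_eq, Set.sdiff_eq]
  exact ((hl2 _ _).inter ((hl2 _ _).union (hl2 _ _)).compl).union
    (((hl2 _ _).inter (hl2 _ _)).inter (hl2 _ _).compl)

private theorem tSym_joint {N : ℕ} (hN : 1 ≤ N) (q : I) (z : Vert) {e f : Edge}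
    (he : e ∈ tEdges N) (hf : f ∈ tEdges N) :
    Pr q (Joint (Wind N) (torusSym_tau N z e) (torusSym_tau N z f)) =
      Pr q (Joint (Wind N) e f) := by
  rw [← Pr_comp (tSym_localOn hN e f) (torusSym_tau_injOn N z)]
  congr 1
  ext ω
  have h := fun a b => tSym_upd hN z he hf a b ω
  unfold Joint
  rw [Set.mem_ofPred_eq]
  simp only [Set.mem_union, Set.mem_sdiff, Set.mem_inter_iff, h]

private theorem tSym_tau_mem {N : ℕ} (hN : 1 ≤ N) (z : Vert) {e : Edge} :
    torusSym_tau N z e ∈ tEdges N := by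
  have hN' : (0 : ℤ) < N := by exact_mod_cast hN
  simp only [tEdges, torusSym_tau, Finset.mem_product, Finset.mem_Ico, Finset.mem_univ, and_true]
  exact ⟨⟨Int.emod_nonneg _ hN'.ne', Int.emod_lt_of_pos _ hN'⟩,
      ⟨Int.emod_nonneg _ hN'.ne', Int.emod_lt_of_pos _ hN'⟩⟩

private theorem tSym_tau_ctr {N : ℕ} {e : Edge} (he : e ∈ tEdges N) :
    torusSym_tau N (e.1 - mid N, e.2.1 - mid N) (ctr N e.2.2) = e := by
  simp only [tEdges, Finset.mem_product, Finset.mem_Ico, Finset.mem_univ, and_true] at he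
  obtain ⟨x, y, d⟩ := e
  simp only at he
  simp only [torusSym_tau, ctr, Prod.mk.injEq, and_true]
  constructor
  · rw [show mid N + (x - mid N) = x by ring, Int.emod_eq_of_lt he.1.1 he.1.2]
  · rw [show mid N + (y - mid N) = y by ring, Int.emod_eq_of_lt he.2.1 he.2.2]

private theorem tSym_image {N : ℕ} (hN : 1 ≤ N) (z : Vert) :
    (tEdges N).image (torusSym_tau N z) = tEdges N := by
  refine Finset.eq_of_subset_of_card_le ?_ ?_
  · intro x hx
    obtain ⟨y, -, rfl⟩ := Finset.mem_image.1 hx
    exact tSym_tau_mem hN z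
  · rw [Finset.card_image_of_injOn (torusSym_tau_injOn N z)]

/-- By translation invariance the sum over pairs is a sum over pairs with first edge in the
middle. -/
theorem sum_joint {N : ℕ} (hN : 1 ≤ N) (q : I) :
    ∑ e ∈ tEdges N, ∑ f ∈ (tEdges N).erase e, Pr q (Joint (Wind N) e f) =
      (N : ℝ) ^ 2 * ∑ d : Bool, ∑ f ∈ (tEdges N).erase (ctr N d),
        Pr q (Joint (Wind N) (ctr N d) f) := by
  rw [← tSym_sum N (fun d => ∑ f ∈ (tEdges N).erase (ctr N d),
        Pr q (Joint (Wind N) (ctr N d) f))]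
  refine Finset.sum_congr rfl fun e he => ?_
  set z : Vert := (e.1 - mid N, e.2.1 - mid N) with hz
  have hτ : torusSym_tau N z (ctr N e.2.2) = e := tSym_tau_ctr he
  symm
  refine Finset.sum_bij (fun f _ => torusSym_tau N z f) ?_ ?_ ?_ ?_
  · intro f hf
    rw [Finset.mem_erase] at hf ⊢
    refine ⟨fun h => hf.1 ?_, tSym_tau_mem hN z⟩
    refine torusSym_tau_injOn N z hf.2 (ctr_mem hN _) ?_
    rw [h, hτ]
  · intro f hf f' hf' h
    exact torusSym_tau_injOn N z (Finset.mem_of_mem_erase hf) (Finset.mem_of_mem_erase hf') h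
  · intro f hf
    rw [Finset.mem_erase] at hf
    have h1 : f ∈ (tEdges N).image (torusSym_tau N z) := by rw [tSym_image hN z]; exact hf.2
    obtain ⟨g, hg, hgf⟩ := Finset.mem_image.1 h1
    refine ⟨g, Finset.mem_erase.2 ⟨fun h => hf.1 ?_, hg⟩, hgf⟩
    rw [← hgf, h, hτ]
  · intro f hf
    have h1 := tSym_joint hN q z (ctr_mem hN e.2.2) (Finset.mem_of_mem_erase hf)
    rw [hτ] at h1
    exact h1.symm

end Pool.Agent.H61.NC
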