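import Pool.Agent.H61.NC.Main

/-!
# The scale relation
-/

open MeasureTheory ProbabilityTheory unitInterval

namespace Pool.Agent.H61.NC

open Pool.Agent.H89.Perc

/-- Doubling of the four-arm probability in the box-crossing regime. -/
theorem a4_doubling (hGL : GLTorus) (hBL : BlockLow) : ∀ c : ℝ, 0 < c → ∃ C : ℝ, 0 < C ∧
    ∀ (N : ℕ) (q : I), 64 ≤ N → RSWreg c N q → a4 q (N / 64) ≤ C * a4 q (N / 2 - 1) := by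
  intro c hc
  obtain ⟨C, hC, H⟩ := le_FT' hGL hBL c hc
  refine ⟨2 * C, by positivity, fun N q hN hR => ?_⟩
  have h1 := H N q hN hR
  have h2 := FT'_le (N := N) (r := N / 2 - 1) (by omega) q (by omega) (by omega)
  have hN2 : (0 : ℝ) < (N : ℝ) ^ 2 := by
    have : (0 : ℝ) < N := by exact_mod_cast (by omega : 0 < N)
    positivity
  have h3 : (N : ℝ) ^ 2 * a4 q (N / 64) ≤ (N : ℝ) ^ 2 * (2 * C * a4 q (N / 2 - 1)) := by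
    calc (N : ℝ) ^ 2 * a4 q (N / 64) ≤ C * FT' N q := h1
      _ ≤ C * (2 * (N : ℝ) ^ 2 * a4 q (N / 2 - 1)) := mul_le_mul_of_nonneg_left h2 hC.le
      _ = _ := by ring
  exact le_of_mul_le_mul_left h3 hN2

/-- Scale relation, upper bound. -/
theorem scale_upper (hGL : GLTorus) (hBL : BlockLow) : ∀ c : ℝ, 0 < c → ∃ C : ℝ, 0 < C ∧
    ∀ (N : ℕ) (q₀ q₁ : I), 64 ≤ N → q₀ ≤ q₁ → 1 / 4 ≤ (q₀ : ℝ) → (q₁ : ℝ) ≤ 3 / 4 →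
      (∀ q : I, q₀ ≤ q → q ≤ q₁ → RSWreg c N q) →
      ((q₁ : ℝ) - q₀) * ((N : ℝ) ^ 2 * a4 q₀ (N / 64)) ≤ C := by
  intro c hc
  obtain ⟨C, hC, H⟩ := le_FT' hGL hBL c hc
  obtain ⟨K, hK, HK⟩ := window hGL hBL c hc
  refine ⟨C * K, by positivity, fun N q₀ q₁ hN h01 h0 h1 hR => ?_⟩
  have h2 := H N q₀ hN (hR q₀ le_rfl h01)
  have h3 := (HK N q₀ q₁ hN h01 h0 h1 hR).1
  have h4 : Pr q₁ (Wind N) - Pr q₀ (Wind N) ≤ 1 := by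
    have ha : Pr q₁ (Wind N) ≤ 1 := Pr_le_one
    have hb : 0 ≤ Pr q₀ (Wind N) := Pr_nonneg
    linarith
  have h5 : (0 : ℝ) ≤ (q₁ : ℝ) - q₀ := sub_nonneg.2 h01
  calc ((q₁ : ℝ) - q₀) * ((N : ℝ) ^ 2 * a4 q₀ (N / 64))
      ≤ ((q₁ : ℝ) - q₀) * (C * FT' N q₀) := mul_le_mul_of_nonneg_left h2 h5
    _ = C * (((q₁ : ℝ) - q₀) * FT' N q₀) := by ring
    _ ≤ C * (K * (Pr q₁ (Wind N) - Pr q₀ (Wind N))) := mul_le_mul_of_nonneg_left h3 hC.le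
    _ ≤ C * (K * 1) := by gcongr
    _ = C * K := by ring

/-- Scale relation, lower bound. -/
theorem scale_lower (hGL : GLTorus) (hBL : BlockLow) : ∀ c : ℝ, 0 < c → ∃ C : ℝ, 0 < C ∧
    ∀ (N r : ℕ) (q₀ q₁ : I), 64 ≤ N → 1 ≤ r → 2 * r + 2 ≤ N → q₀ ≤ q₁ →
      1 / 4 ≤ (q₀ : ℝ) → (q₁ : ℝ) ≤ 3 / 4 →
      (∀ q : I, q₀ ≤ q → q ≤ q₁ → RSWreg c N q) →
      Pr q₁ (Wind N) - Pr q₀ (Wind N) ≤ C * (((q₁ : ℝ) - q₀) * ((N : ℝ) ^ 2 * a4 q₀ r)) := by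
  intro c hc
  obtain ⟨K, hK, HK⟩ := window hGL hBL c hc
  refine ⟨K * 2, by positivity, fun N r q₀ q₁ hN hr hrN h01 h0 h1 hR => ?_⟩
  have h2 := FT'_le (N := N) (r := r) (by omega) q₀ hr hrN
  have h3 := (HK N q₀ q₁ hN h01 h0 h1 hR).2
  have h5 : (0 : ℝ) ≤ (q₁ : ℝ) - q₀ := sub_nonneg.2 h01
  calc Pr q₁ (Wind N) - Pr q₀ (Wind N) ≤ K * (((q₁ : ℝ) - q₀) * FT' N q₀) := h3
    _ ≤ K * (((q₁ : ℝ) - q₀) * (2 * (N : ℝ) ^ 2 * a4 q₀ r)) := by gcongr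
    _ = _ := by ring

end Pool.Agent.H61.NC
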