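import Pool.Agent.H89.Perc.Russo

/-!
# Second derivative of the probability of a local event
-/

open MeasureTheory ProbabilityTheory unitInterval

namespace Pool.Agent.H61.NC

open Pool.Agent.H89.Perc

variable {s : Finset Edge} {A : Set Config}

/-- The event `A` after giving the value `b` to the edge `e`. -/
def upd (A : Set Config) (e : Edge) (b : Bool) : Set Config := {ω | Function.update ω e b ∈ A}

/-- The second discrete derivative of the indicator of the increasing event `A` in the directions
`e` and `f` does not vanish. -/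
def Joint (A : Set Config) (e f : Edge) : Set Config :=
  (upd (upd A e true) f true \ (upd (upd A e true) f false ∪ upd (upd A e false) f true)) ∪
  ((upd (upd A e true) f false ∩ upd (upd A e false) f true) \ upd (upd A e false) f false)

/-- The derivative of the probability of `A` as a function on the real line. -/
noncomputable def PrR' (s : Finset Edge) (A : Set Config) (x : ℝ) : ℝ :=
  ∑ e ∈ s, (PrR s (upd A e true) x - PrR s (upd A e false) x)

theorem localOn_upd (hA : LocalOn s A) (e : Edge) (b : Bool) : LocalOn s (upd A e b) :=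
  (hA.update e b).mono (Finset.erase_subset e s)

private theorem second_pivot_eq (q : I) (A : Set Config) (e : Edge) :
    pivot q A e = Pr q (upd A e true) - Pr q (upd A e false) := rfl

theorem PrR'_eq (hA : LocalOn s A) (q : I) : PrR' s A (q : ℝ) = ∑ e ∈ s, pivot q A e := by
  unfold PrR'
  refine Finset.sum_congr rfl fun e _ => ?_
  rw [second_pivot_eq, Pr_eq_PrR (localOn_upd hA e true), Pr_eq_PrR (localOn_upd hA e false)]

theorem hasDerivAt_PrR_eq (hA : LocalOn s A) (q : I) :
    HasDerivAt (PrR s A) (PrR' s A (q : ℝ)) (q : ℝ) := by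
  rw [PrR'_eq hA q]
  exact hasDerivAt_PrR hA q

theorem hasDerivAt_PrR' (hA : LocalOn s A) (q : I) :
    HasDerivAt (PrR' s A)
      (∑ e ∈ s, ∑ f ∈ s, (pivot q (upd A e true) f - pivot q (upd A e false) f)) (q : ℝ) := by
  unfold PrR'
  refine HasDerivAt.fun_sum fun e _ => ?_
  rw [Finset.sum_sub_distrib]
  exact (hasDerivAt_PrR (localOn_upd hA e true) q).sub (hasDerivAt_PrR (localOn_upd hA e false) q)

private theorem second_upd_mono (iA : Incr A) (e : Edge) : upd A e false ⊆ upd A e true := by
  intro ω hω
  refine iA _ _ (fun x hx => ?_) hω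
  by_cases hxe : x = e
  · subst hxe; simp
  · rw [Function.update_of_ne hxe] at hx ⊢; exact hx

private theorem second_upd_incr (iA : Incr A) (e : Edge) (b : Bool) : Incr (upd A e b) := by
  intro ω ω' h hω
  refine iA _ _ (fun x hx => ?_) hω
  by_cases hxe : x = e
  · subst hxe; simpa using hx
  · rw [Function.update_of_ne hxe] at hx ⊢; exact h x hx

private theorem second_upd_sub {A B : Set Config} (h : A ⊆ B) (f : Edge) (b : Bool) :
    upd A f b ⊆ upd B f b := fun _ hω => h hω

theorem abs_pivot2_le (hA : LocalOn s A) (iA : Incr A) {e f : Edge} (hef : e ≠ f) (q : I) :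
    |pivot q (upd A e true) f - pivot q (upd A e false) f| ≤ Pr q (Joint A e f) := by
  set TT := upd (upd A e true) f true with hTT
  set TF := upd (upd A e true) f false with hTF
  set FT := upd (upd A e false) f true with hFT
  set FF := upd (upd A e false) f false with hFF
  have lTT : MeasurableSet TT := (localOn_upd (localOn_upd hA e true) f true).measurableSet
  have lTF : MeasurableSet TF := (localOn_upd (localOn_upd hA e true) f false).measurableSet
  have lFT : MeasurableSet FT := (localOn_upd (localOn_upd hA e false) f true).measurableSet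
  have lFF : MeasurableSet FF := (localOn_upd (localOn_upd hA e false) f false).measurableSet
  have s1 : TF ⊆ TT := second_upd_mono (second_upd_incr iA e true) f
  have s2 : FT ⊆ TT := second_upd_sub (second_upd_mono iA e) f true
  have s3 : FF ⊆ TF := second_upd_sub (second_upd_mono iA e) f false
  have s4 : FF ⊆ FT := second_upd_mono (second_upd_incr iA e false) f
  have e1 : Pr q (TF ∪ FT) + Pr q (TF ∩ FT) = Pr q TF + Pr q FT :=
    measureReal_union_add_inter lFT
  have e2 : Pr q (TT \ (TF ∪ FT)) = Pr q TT - Pr q (TF ∪ FT) :=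
    measureReal_sdiff (Set.union_subset s1 s2) (lTF.union lFT)
  have e3 : Pr q ((TF ∩ FT) \ FF) = Pr q (TF ∩ FT) - Pr q FF :=
    measureReal_sdiff (Set.subset_inter s3 s4) lFF
  have e4 : Pr q (TT \ (TF ∪ FT)) ≤ Pr q (Joint A e f) := Pr_mono Set.subset_union_left
  have e5 : Pr q ((TF ∩ FT) \ FF) ≤ Pr q (Joint A e f) := Pr_mono Set.subset_union_right
  have p1 : 0 ≤ Pr q (TT \ (TF ∪ FT)) := Pr_nonneg
  have p2 : 0 ≤ Pr q ((TF ∩ FT) \ FF) := Pr_nonneg
  have e6 : pivot q (upd A e true) f - pivot q (upd A e false) f =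
      Pr q (TT \ (TF ∪ FT)) - Pr q ((TF ∩ FT) \ FF) := by
    rw [second_pivot_eq, second_pivot_eq, e2, e3]
    linarith
  rw [e6, abs_le]
  constructor <;> linarith

theorem pivot_upd_self (q : I) (A : Set Config) (e : Edge) (b : Bool) :
    pivot q (upd A e b) e = 0 := by
  have h : ∀ b' : Bool, {ω : Config | Function.update ω e b' ∈ upd A e b} = upd A e b := by
    intro b'
    ext ω
    simp only [upd, Set.mem_ofPred_eq, Function.update_idem]
  unfold pivot
  rw [h true, h false, sub_self]

theorem abs_second_le (hA : LocalOn s A) (iA : Incr A) (q : I) :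
    |∑ e ∈ s, ∑ f ∈ s, (pivot q (upd A e true) f - pivot q (upd A e false) f)| ≤
      ∑ e ∈ s, ∑ f ∈ s.erase e, Pr q (Joint A e f) := by
  refine (Finset.abs_sum_le_sum_abs _ _).trans (Finset.sum_le_sum fun e _ => ?_)
  rw [← Finset.sum_erase s (a := e)
    (f := fun f => pivot q (upd A e true) f - pivot q (upd A e false) f)
    (by simp only [pivot_upd_self, sub_self])]
  refine (Finset.abs_sum_le_sum_abs _ _).trans (Finset.sum_le_sum fun f hf => ?_)
  exact abs_pivot2_le hA iA (Ne.symm (Finset.ne_of_mem_erase hf)) q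

/-- On `Joint A e f`, for some value of `f` the edge `e` is pivotal, and conversely. -/
theorem Joint_piv {A : Set Config} (iA : Incr A) {e f : Edge} (hef : e ≠ f) {ω : Config}
    (h : ω ∈ Joint A e f) :
    (∃ b, Function.update (Function.update ω f b) e true ∈ A ∧
      Function.update (Function.update ω f b) e false ∉ A) ∧
    (∃ b, Function.update (Function.update ω e b) f true ∈ A ∧
      Function.update (Function.update ω e b) f false ∉ A) := by
  rcases h with ⟨h1, h2⟩ | ⟨⟨h1, h2⟩, h3⟩
  · rw [Set.mem_union, not_or] at h2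
    obtain ⟨h2, h3⟩ := h2
    refine ⟨⟨true, h1, h3⟩, ⟨true, ?_, ?_⟩⟩
    · rw [Function.update_comm hef]; exact h1
    · rw [Function.update_comm hef]; exact h2
  · refine ⟨⟨false, h1, h3⟩, ⟨false, ?_, ?_⟩⟩
    · rw [Function.update_comm hef]; exact h2
    · rw [Function.update_comm hef]; exact h3

/-- Comparison with the influence of one edge (finite energy). -/
theorem Pr_Joint_le (hA : LocalOn s A) (iA : Incr A) {e f : Edge} (hef : e ≠ f) (q : I)
    (h1 : 1 / 4 ≤ (q : ℝ)) (h2 : (q : ℝ) ≤ 3 / 4) :
    Pr q (Joint A e f) ≤ 8 * pivot q A e := by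
  set TT := upd (upd A e true) f true with hTT
  set TF := upd (upd A e true) f false with hTF
  set FT := upd (upd A e false) f true with hFT
  set FF := upd (upd A e false) f false with hFF
  have lFT : MeasurableSet FT := (localOn_upd (localOn_upd hA e false) f true).measurableSet
  have lFF : MeasurableSet FF := (localOn_upd (localOn_upd hA e false) f false).measurableSet
  have s2 : FT ⊆ TT := second_upd_sub (second_upd_mono iA e) f true
  have s3 : FF ⊆ TF := second_upd_sub (second_upd_mono iA e) f false
  have e2 : Pr q (TT \ FT) = Pr q TT - Pr q FT := measureReal_sdiff s2 lFT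
  have e3 : Pr q (TF \ FF) = Pr q TF - Pr q FF := measureReal_sdiff s3 lFF
  have p1 : 0 ≤ Pr q (TT \ FT) := Pr_nonneg
  have p2 : 0 ≤ Pr q (TF \ FF) := Pr_nonneg
  have e4 : Pr q (Joint A e f) ≤ Pr q (TT \ FT) + Pr q (TF \ FF) := by
    refine (Pr_mono ?_).trans Pr_union_le
    rintro ω (⟨a1, a2⟩ | ⟨⟨a1, a2⟩, a3⟩)
    · left
      rw [Set.mem_union, not_or] at a2
      exact ⟨a1, a2.2⟩
    · right
      exact ⟨a1, a3⟩
  have f1 : Pr q (upd A e true) = q * Pr q TT + (1 - q) * Pr q TF :=
    Pr_eq_update (localOn_upd hA e true) f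
  have f2 : Pr q (upd A e false) = q * Pr q FT + (1 - q) * Pr q FF :=
    Pr_eq_update (localOn_upd hA e false) f
  have f3 : pivot q A e = q * Pr q (TT \ FT) + (1 - q) * Pr q (TF \ FF) := by
    rw [second_pivot_eq, f1, f2, e2, e3]
    ring
  rw [f3]
  nlinarith [mul_nonneg (sub_nonneg.2 h1) p1, mul_nonneg (sub_nonneg.2 h2) p2]

end Pool.Agent.H61.NC
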