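import Mathlib

/-!
# Two calculus lemmas
-/

namespace Pool.Agent.H61.NC

theorem Calc_aux {F F' G G' : ℝ → ℝ} {a b K : ℝ} (hab : a ≤ b)
    (hF : ∀ x ∈ Set.Icc a b, HasDerivAt F (F' x) x)
    (hG : ∀ x ∈ Set.Icc a b, HasDerivAt G (G' x) x)
    (hpos : ∀ x ∈ Set.Icc a b, 0 < G x)
    (hK : ∀ x ∈ Set.Icc a b, G' x ≤ K * G x * F' x) :
    Real.log (G b) - K * F b ≤ Real.log (G a) - K * F a := by
  have hd : ∀ x ∈ Set.Icc a b, HasDerivAt (fun x => Real.log (G x) - K * F x)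
      (G' x / G x - K * F' x) x := by
    intro x hx
    exact ((hG x hx).log (hpos x hx).ne').sub ((hF x hx).const_mul K)
  have hanti : AntitoneOn (fun x => Real.log (G x) - K * F x) (Set.Icc a b) := by
    refine antitoneOn_of_deriv_nonpos (convex_Icc a b) ?_ ?_ ?_
    · exact fun x hx => (hd x hx).continuousAt.continuousWithinAt
    · exact fun x hx => (hd x (interior_subset hx)).differentiableAt.differentiableWithinAt
    · intro x hx
      have hx' := interior_subset hx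
      rw [(hd x hx').deriv]
      have h1 := hK x hx'
      have h2 := hpos x hx'
      rw [sub_nonpos, div_le_iff₀ h2]
      linarith
  exact hanti ⟨le_rfl, hab⟩ ⟨hab, le_rfl⟩ hab

/-- If `|G'| ≤ K G F'`, `G > 0` and `0 ≤ F ≤ 1` on `[a, b]`, then `G` is constant on `[a, b]` up
to the factor `exp K`. -/
theorem Calc_log_stability {F F' G G' : ℝ → ℝ} {a b K : ℝ} (hab : a ≤ b) (hK0 : 0 ≤ K)
    (hF : ∀ x ∈ Set.Icc a b, HasDerivAt F (F' x) x)
    (hG : ∀ x ∈ Set.Icc a b, HasDerivAt G (G' x) x)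
    (hpos : ∀ x ∈ Set.Icc a b, 0 < G x)
    (hK : ∀ x ∈ Set.Icc a b, |G' x| ≤ K * G x * F' x)
    (h01 : ∀ x ∈ Set.Icc a b, 0 ≤ F x ∧ F x ≤ 1) :
    G b ≤ Real.exp K * G a ∧ G a ≤ Real.exp K * G b := by
  have ha : a ∈ Set.Icc a b := ⟨le_rfl, hab⟩
  have hb : b ∈ Set.Icc a b := ⟨hab, le_rfl⟩
  have hFa := h01 a ha
  have hFb := h01 b hb
  have h1 := Calc_aux hab hF hG hpos (fun x hx => (le_abs_self _).trans (hK x hx))
  have h3 : Real.log (G b) ≤ Real.log (G a) + K := by nlinarith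
  have h4 : Real.log (G a) ≤ Real.log (G b) + K := by
    have h5 := Calc_aux (K := K) hab (F := F) (F' := F') (G := fun x => (G x)⁻¹)
      (G' := fun x => -G' x / G x ^ 2) hF (fun x hx => (hG x hx).inv (hpos x hx).ne')
      (fun x hx => inv_pos.2 (hpos x hx)) (fun x hx => by
        have h6 := hK x hx
        have h7 := hpos x hx
        have h8 : -G' x ≤ K * G x * F' x := (neg_le_abs _).trans h6
        rw [div_le_iff₀ (by positivity)]
        have h9 : K * (G x)⁻¹ * F' x * G x ^ 2 = K * G x * F' x := by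
          field_simp
        rw [h9]
        exact h8)
    simp only [Real.log_inv] at h5
    nlinarith
  constructor
  · have h5 := Real.exp_le_exp.2 h3
    rwa [Real.exp_add, Real.exp_log (hpos b hb), Real.exp_log (hpos a ha), mul_comm] at h5
  · have h5 := Real.exp_le_exp.2 h4
    rwa [Real.exp_add, Real.exp_log (hpos b hb), Real.exp_log (hpos a ha), mul_comm] at h5

/-- If `|F''| ≤ K F' ^ 2`, `F' > 0` and `0 ≤ F ≤ 1` on `[a, b]`, then `F'` is constant on `[a, b]` up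
to the factor `exp K`. -/
theorem stability {F F' F'' : ℝ → ℝ} {a b K : ℝ} (hab : a ≤ b) (hK0 : 0 ≤ K)
    (hF : ∀ x ∈ Set.Icc a b, HasDerivAt F (F' x) x)
    (hF' : ∀ x ∈ Set.Icc a b, HasDerivAt F' (F'' x) x)
    (hpos : ∀ x ∈ Set.Icc a b, 0 < F' x)
    (hK : ∀ x ∈ Set.Icc a b, |F'' x| ≤ K * F' x ^ 2)
    (h01 : ∀ x ∈ Set.Icc a b, 0 ≤ F x ∧ F x ≤ 1) :
    F' b ≤ Real.exp K * F' a ∧ F' a ≤ Real.exp K * F' b := by
  refine Calc_log_stability hab hK0 hF hF' hpos (fun x hx => ?_) h01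
  have := hK x hx
  rw [pow_two, ← mul_assoc] at this
  exact this

/-- If `|G'| ≤ K G F'`, `G > 0` and `0 ≤ F ≤ 1` on `[a, b]`, then `G` is constant on `[a, b]` up
to the factor `exp K`. -/
theorem log_stability {F F' G G' : ℝ → ℝ} {a b K : ℝ} (hab : a ≤ b) (hK0 : 0 ≤ K)
    (hF : ∀ x ∈ Set.Icc a b, HasDerivAt F (F' x) x)
    (hG : ∀ x ∈ Set.Icc a b, HasDerivAt G (G' x) x)
    (hpos : ∀ x ∈ Set.Icc a b, 0 < G x)
    (hK : ∀ x ∈ Set.Icc a b, |G' x| ≤ K * G x * F' x)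
    (h01 : ∀ x ∈ Set.Icc a b, 0 ≤ F x ∧ F x ≤ 1) :
    G b ≤ Real.exp K * G a ∧ G a ≤ Real.exp K * G b :=
  Calc_log_stability hab hK0 hF hG hpos hK h01

end Pool.Agent.H61.NC
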