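import Pool.Agent.H61.NC.A4Basic

/-!
# A pivotal edge for the winding event has four arms
-/

open MeasureTheory ProbabilityTheory unitInterval

namespace Pool.Agent.H61.NC

open Pool.Agent.H89.Perc

private lemma Det_per_shift {N : ℕ} (η : Config) (a b : ℤ) {u v : Vert}
    (h : Conn (per N η) Set.univ u v) :
    Conn (per N η) Set.univ (u.1 + a * N, u.2 + b * N) (v.1 + a * N, v.2 + b * N) := by
  have h1 := conn_shift (ω := per N η) (a * N, b * N) Set.univ u v
  have h2 : (fun e => per N η (shiftE (a * N, b * N) e)) = per N η := by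
    funext e
    simp only [per, shiftE]
    rw [Int.add_mul_emod_self_right, Int.add_mul_emod_self_right]
  rw [h2] at h1
  exact (h1.1 h).mono_set (Set.subset_univ _)

/-- Contraction of the translates of a small cluster. -/
private lemma Det_core {N r : ℕ} (hN : 2 * r + 2 ≤ N) (x p q : Vert)
    (η0 η1 : Config)
    (hper : ∀ (a b : ℤ) (u v : Vert), Conn η0 Set.univ u v →
      Conn η0 Set.univ (u.1 + a * N, u.2 + b * N) (v.1 + a * N, v.2 + b * N))
    (hstep : ∀ v v' : Vert, Step η1 Set.univ v v' → Step η0 Set.univ v v' ∨ ∃ a b : ℤ,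
      (v = (p.1 + a * N, p.2 + b * N) ∧ v' = (q.1 + a * N, q.2 + b * N)) ∨
      (v = (q.1 + a * N, q.2 + b * N) ∧ v' = (p.1 + a * N, p.2 + b * N)))
    (hq : |q.1 - x.1| ≤ 1 ∧ |q.2 - x.2| ≤ 1) (hpq : ¬ Conn η0 Set.univ p q)
    (hC : ∀ v : Vert, Conn η0 Set.univ p v → |v.1 - x.1| ≤ r ∧ |v.2 - x.2| ≤ r)
    (u : Vert) (a b : ℤ) (h : Conn η1 Set.univ u (u.1 + a * N, u.2 + b * N)) :
    ∃ u' : Vert, Conn η0 Set.univ u' (u'.1 + a * N, u'.2 + b * N) := by
  classical
  have hN' : (2 * r + 2 : ℤ) ≤ N := by exact_mod_cast hN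
  -- membership in the translate of the cluster
  obtain ⟨Cl, hCl⟩ : ∃ Cl : ℤ → ℤ → Vert → Prop, ∀ a b v, Cl a b v ↔
      Conn η0 Set.univ p (v.1 - a * N, v.2 - b * N) := ⟨_, fun _ _ _ => Iff.rfl⟩
  have hmul : ∀ c : ℤ, |c * N| < N → c = 0 := by
    intro c hc
    by_contra h0
    have h1 : 1 ≤ |c| := Int.one_le_abs h0
    rw [abs_mul, abs_of_nonneg (by omega : (0 : ℤ) ≤ N)] at hc
    nlinarith
  have huniq : ∀ a b a' b' v, Cl a b v → Cl a' b' v → a = a' ∧ b = b' := by
    intro a b a' b' v h1 h2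
    have h3 := hC _ ((hCl _ _ _).1 h1)
    have h4 := hC _ ((hCl _ _ _).1 h2)
    simp only at h3 h4
    have h5 : a - a' = 0 := by
      apply hmul
      have e1 : (a - a') * N = (v.1 - a' * N - x.1) - (v.1 - a * N - x.1) := by ring
      rw [e1]
      have := abs_sub (v.1 - a' * N - x.1) (v.1 - a * N - x.1)
      omega
    have h6 : b - b' = 0 := by
      apply hmul
      have e1 : (b - b') * N = (v.2 - b' * N - x.2) - (v.2 - b * N - x.2) := by ring
      rw [e1]
      have := abs_sub (v.2 - b' * N - x.2) (v.2 - b * N - x.2)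
      omega
    exact ⟨by omega, by omega⟩
  have hshift : ∀ a b c d v, Cl a b v → Cl (a + c) (b + d) (v.1 + c * N, v.2 + d * N) := by
    intro a b c d v h1
    rw [hCl] at h1 ⊢
    have e1 : ((v.1 + c * N - (a + c) * N, v.2 + d * N - (b + d) * N) : Vert) =
        (v.1 - a * N, v.2 - b * N) := by
      ext <;> (simp only; ring)
    simp only at e1 ⊢
    rw [e1]
    exact h1
  have hqC : ∀ a b c d, ¬ Cl a b (q.1 + c * N, q.2 + d * N) := by
    intro a b c d h1
    rw [hCl] at h1
    have h3 := hC _ h1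
    simp only at h3
    have h5 : c - a = 0 := by
      apply hmul
      have e1 : (c - a) * N = (q.1 + c * N - a * N - x.1) - (q.1 - x.1) := by ring
      rw [e1]
      have := abs_sub (q.1 + c * N - a * N - x.1) (q.1 - x.1)
      omega
    have h6 : d - b = 0 := by
      apply hmul
      have e1 : (d - b) * N = (q.2 + d * N - b * N - x.2) - (q.2 - x.2) := by ring
      rw [e1]
      have := abs_sub (q.2 + d * N - b * N - x.2) (q.2 - x.2)
      omega
    have h7 : c = a := by omega
    have h8 : d = b := by omega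
    subst h7 h8
    apply hpq
    have e1 : ((q.1 + c * N - c * N, q.2 + d * N - d * N) : Vert) = q := by
      ext <;> (simp only; ring)
    simp only at h1
    rw [e1] at h1
    exact h1
  have hpC : ∀ c d, Cl c d (p.1 + c * N, p.2 + d * N) := by
    intro c d
    rw [hCl]
    have e1 : ((p.1 + c * N - c * N, p.2 + d * N - d * N) : Vert) = p := by
      ext <;> (simp only; ring)
    simp only
    rw [e1]
    exact Conn.refl (Set.mem_univ _)
  -- closure under steps
  have hclose : ∀ a b v v', Step η0 Set.univ v v' → Cl a b v → Cl a b v' := by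
    intro a b v v' h1 h2
    rw [hCl] at h2 ⊢
    have h3 := hper (-a) (-b) v v' h1.conn
    have e1 : ∀ w : Vert, ((w.1 + -a * N, w.2 + -b * N) : Vert) = (w.1 - a * N, w.2 - b * N) := by
      intro w
      ext <;> (simp only; ring)
    rw [e1, e1] at h3
    exact h2.trans h3
  obtain ⟨g, hg⟩ : ∃ g : Vert → Vert, g = fun v => if h : ∃ c : ℤ × ℤ, Cl c.1 c.2 v then
      (q.1 + h.choose.1 * N, q.2 + h.choose.2 * N) else v := ⟨_, rfl⟩
  have hg1 : ∀ a b v, Cl a b v → g v = (q.1 + a * N, q.2 + b * N) := by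
    intro a b v h1
    have h2 : ∃ c : ℤ × ℤ, Cl c.1 c.2 v := ⟨(a, b), h1⟩
    rw [hg]
    simp only
    rw [dif_pos h2]
    obtain ⟨h3, h4⟩ := huniq _ _ _ _ v h2.choose_spec h1
    rw [h3, h4]
  have hg2 : ∀ v, (∀ a b, ¬ Cl a b v) → g v = v := by
    intro v h1
    have h2 : ¬ ∃ c : ℤ × ℤ, Cl c.1 c.2 v := by
      rintro ⟨c, hc⟩
      exact h1 _ _ hc
    rw [hg]
    simp only
    rw [dif_neg h2]
  have hg3 : ∀ v c d, g (v.1 + c * N, v.2 + d * N) = ((g v).1 + c * N, (g v).2 + d * N) := by
    intro v c d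
    by_cases h1 : ∃ c : ℤ × ℤ, Cl c.1 c.2 v
    · obtain ⟨k, hk⟩ := h1
      rw [hg1 _ _ v hk, hg1 _ _ _ (hshift k.1 k.2 c d v hk)]
      ext <;> (simp only; ring)
    · have h2 : ∀ a b, ¬ Cl a b v := fun a b h => h1 ⟨(a, b), h⟩
      rw [hg2 v h2, hg2]
      intro a b h3
      have h4 := hshift a b (-c) (-d) _ h3
      have e1 : (((v.1 + c * N) + -c * N, (v.2 + d * N) + -d * N) : Vert) = v := by
        ext <;> (simp only; ring)
      simp only at h4
      rw [e1] at h4
      exact h2 _ _ h4
  refine ⟨g u, ?_⟩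
  rw [← hg3]
  refine h.induction_right (P := fun v => Conn η0 Set.univ (g u) (g v))
    (Conn.refl (Set.mem_univ _)) ?_
  intro v v' _ hvv hv
  rcases hstep v v' hvv with h1 | ⟨c, d, h1 | h1⟩
  · by_cases h2 : ∃ c : ℤ × ℤ, Cl c.1 c.2 v
    · obtain ⟨k, hk⟩ := h2
      rw [hg1 _ _ v hk] at hv
      rw [hg1 _ _ v' (hclose _ _ _ _ h1 hk)]
      exact hv
    · have h3 : ∀ a b, ¬ Cl a b v := fun a b h => h2 ⟨(a, b), h⟩
      have h4 : ∀ a b, ¬ Cl a b v' := fun a b h => h3 a b (hclose _ _ _ _ h1.symm h)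
      rw [hg2 v h3] at hv
      rw [hg2 v' h4]
      exact hv.tail h1
  · obtain ⟨h2, h3⟩ := h1
    rw [h2, hg1 _ _ _ (hpC c d)] at hv
    rw [h3, hg2 _ fun a b => hqC a b c d]
    exact hv
  · obtain ⟨h2, h3⟩ := h1
    rw [h2, hg2 _ fun a b => hqC a b c d] at hv
    rw [h3, hg1 _ _ _ (hpC c d)]
    exact hv

/-- If the edge `e` is pivotal for the winding event then the four-arm event of `e` occurs (on the
universal cover, i.e. for the periodic configuration). -/
theorem A4T_of_pivot {N : ℕ} {e : Edge} (he : e ∈ tEdges N) {r : ℕ} (hr : 1 ≤ r)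
    (hN : 2 * r + 2 ≤ N) {ω : Config} (h1 : Function.update ω e true ∈ Wind N)
    (h2 : Function.update ω e false ∉ Wind N) : ω ∈ A4T N e r := by
  have hN' : (2 * r + 2 : ℤ) ≤ N := by exact_mod_cast hN
  have hte : 0 ≤ e.1 ∧ e.1 < N ∧ 0 ≤ e.2.1 ∧ e.2.1 < N := by
    simp only [tEdges, Finset.mem_product, Finset.mem_Ico, Finset.mem_univ, and_true] at he
    tauto
  have hmod : modE N e = e := by
    obtain ⟨x, y, c⟩ := e
    simp only [modE]
    simp only at hte
    rw [Int.emod_eq_of_lt hte.1 hte.2.1, Int.emod_eq_of_lt hte.2.2.1 hte.2.2.2]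
  obtain ⟨η0, hη0⟩ : ∃ η0, η0 = per N (Function.update ω e false) := ⟨_, rfl⟩
  obtain ⟨η1, hη1⟩ : ∃ η1, η1 = per N (Function.update ω e true) := ⟨_, rfl⟩
  -- edges which are translates of `e`
  have htr : ∀ f : Edge, modE N f = e → ∃ a b : ℤ, f = shiftE (a * N, b * N) e := by
    intro f hf
    refine ⟨f.1 / N, f.2.1 / N, ?_⟩
    rw [← hf]
    obtain ⟨x, y, c⟩ := f
    simp only [modE, shiftE]
    rw [Int.emod_add_ediv_mul, Int.emod_add_ediv_mul]
  have hη0f : ∀ f : Edge, η0 f = if modE N f = e then false else per N ω f := by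
    intro f
    rw [hη0]
    unfold per
    rw [Function.update_apply]
    rfl
  have hη1f : ∀ f : Edge, η1 f = if modE N f = e then true else per N ω f := by
    intro f
    rw [hη1]
    unfold per
    rw [Function.update_apply]
    rfl
  have hper : ∀ (a b : ℤ) (u v : Vert), Conn η0 Set.univ u v →
      Conn η0 Set.univ (u.1 + a * N, u.2 + b * N) (v.1 + a * N, v.2 + b * N) := by
    intro a b u v h
    rw [hη0] at h ⊢
    exact Det_per_shift _ a b h
  have hstep : ∀ v v' : Vert, Step η1 Set.univ v v' → Step η0 Set.univ v v' ∨ ∃ a b : ℤ,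
      (v = ((src e).1 + a * N, (src e).2 + b * N) ∧ v' = ((tgt e).1 + a * N, (tgt e).2 + b * N)) ∨
      (v = ((tgt e).1 + a * N, (tgt e).2 + b * N) ∧
        v' = ((src e).1 + a * N, (src e).2 + b * N)) := by
    rintro v v' ⟨-, -, f, hf, hfo⟩
    by_cases hfe : modE N f = e
    · right
      obtain ⟨a, b, hab⟩ := htr f hfe
      refine ⟨a, b, ?_⟩
      have h3 := joins_shift (a * N, b * N) (joins_src_tgt e)
      rw [← hab] at h3
      rcases hf with ⟨g1, g2⟩ | ⟨g1, g2⟩ <;> rcases h3 with ⟨g3, g4⟩ | ⟨g3, g4⟩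
      · left
        exact ⟨g1.trans g3.symm, g2.trans g4.symm⟩
      · right
        exact ⟨g1.trans g4.symm, g2.trans g3.symm⟩
      · right
        exact ⟨g1.trans g4.symm, g2.trans g3.symm⟩
      · left
        exact ⟨g1.trans g3.symm, g2.trans g4.symm⟩
    · left
      refine ⟨Set.mem_univ _, Set.mem_univ _, f, hf, ?_⟩
      rw [hη1f, if_neg hfe] at hfo
      rw [hη0f, if_neg hfe]
      exact hfo
  -- the configurations agree inside the ball
  have hball : ∀ f : Edge, src f ∈ ball (src e) r → tgt f ∈ ball (src e) r →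
      close e (per N ω) f = η0 f := by
    intro f hf _
    rw [hη0f]
    unfold close
    by_cases hfe : f = e
    · rw [hfe, Function.update_self, hmod, if_pos rfl]
    · rw [Function.update_of_ne hfe]
      have h3 : modE N f ≠ e := by
        intro h
        obtain ⟨a, b, hab⟩ := htr f h
        apply hfe
        rw [hab] at hf ⊢
        obtain ⟨x, y, c⟩ := e
        simp only [mem_ball, src, shiftE] at hf ⊢
        have ha : a = 0 := by
          by_contra h0
          rcases lt_or_gt_of_ne h0 with h0 | h0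
          · have : a * N ≤ -1 * N := mul_le_mul_of_nonneg_right (by omega) (by omega)
            omega
          · have : 1 * N ≤ a * N := mul_le_mul_of_nonneg_right (by omega) (by omega)
            omega
        have hb : b = 0 := by
          by_contra h0
          rcases lt_or_gt_of_ne h0 with h0 | h0
          · have : b * N ≤ -1 * N := mul_le_mul_of_nonneg_right (by omega) (by omega)
            omega
          · have : 1 * N ≤ b * N := mul_le_mul_of_nonneg_right (by omega) (by omega)
            omega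
        rw [ha, hb]
        simp
      rw [if_neg h3]
  obtain ⟨u, a, b, ha, hu⟩ := h1
  rw [← hη1] at hu
  have hnot : ∀ u' : Vert, ¬ Conn η0 Set.univ u' (u'.1 + a * N, u'.2 + b * N) := by
    intro u' h
    rw [hη0] at h
    exact h2 ⟨u', a, b, ha, h⟩
  -- the two ends are not joined
  have hxy : ¬ Conn η0 Set.univ (src e) (tgt e) := by
    intro h
    apply hnot u
    refine hu.induction_right (P := fun v => Conn η0 Set.univ u v)
      (Conn.refl (Set.mem_univ _)) ?_
    intro v v' _ hvv hv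
    rcases hstep v v' hvv with h3 | ⟨c, d, h3 | h3⟩
    · exact hv.tail h3
    · rw [h3.1] at hv
      rw [h3.2]
      exact hv.trans (hper c d _ _ h)
    · rw [h3.1] at hv
      rw [h3.2]
      exact hv.trans (hper c d _ _ h.symm)
  have htgt : |(tgt e).1 - (src e).1| ≤ 1 ∧ |(tgt e).2 - (src e).2| ≤ 1 := by
    obtain ⟨x, y, c⟩ := e
    cases c
    · simp [src, tgt]
    · simp [src, tgt]
  have htb : tgt e ∈ ball (src e) r := by
    have h3 := abs_le.1 htgt.1
    have h4 := abs_le.1 htgt.2
    rw [mem_ball]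
    omega
  -- a point of the ball with no arm has a small cluster
  have hsmall : ∀ p : Vert, p ∈ ball (src e) r →
      (¬ ∃ u ∈ sphere (src e) r, Conn (close e (per N ω)) (ball (src e) r) p u) →
      ∀ v : Vert, Conn η0 Set.univ p v → |v.1 - (src e).1| ≤ r ∧ |v.2 - (src e).2| ≤ r := by
    intro p hp hno v hv
    by_contra hcon
    have h3 : v ∉ ball (src e) r := by
      intro h
      apply hcon
      rw [mem_ball] at h
      rw [abs_le, abs_le]
      omega
    obtain ⟨w, hw, hc⟩ := hv.to_sphere hp (Or.inl h3)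
    apply hno
    refine ⟨w, hw, ?_⟩
    have h4 := hc.mono_set (T := ball (src e) r) Set.inter_subset_right
    exact h4.congr fun f hf1 hf2 => (hball f hf1 hf2).symm
  refine ⟨?_, ?_, ?_⟩
  · by_contra hno
    obtain ⟨u', hu'⟩ := Det_core hN (src e) (src e) (tgt e) η0 η1 hper hstep htgt hxy
      (hsmall (src e) self_mem_ball hno) u a b hu
    exact hnot u' hu'
  · by_contra hno
    obtain ⟨u', hu'⟩ := Det_core hN (src e) (tgt e) (src e) η0 η1 hper
      (fun v v' h => by
        rcases hstep v v' h with h3 | ⟨c, d, h3 | h3⟩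
        · exact Or.inl h3
        · exact Or.inr ⟨c, d, Or.inr h3⟩
        · exact Or.inr ⟨c, d, Or.inl h3⟩)
      (by simp) (fun h => hxy h.symm)
      (hsmall (tgt e) htb hno) u a b hu
    exact hnot u' hu'
  · intro h
    exact hxy ((h.congr hball).mono_set (Set.subset_univ _))

end Pool.Agent.H61.NC
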