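import Pool.Agent.H61.NC.Sum
import Pool.Agent.H61.NC.Calc

/-!
# Near-critical stability on the torus
-/

open MeasureTheory ProbabilityTheory unitInterval

namespace Pool.Agent.H61.NC

open Pool.Agent.H89.Perc

/-- The derivative of the winding probability. -/
noncomputable def FT' (N : ℕ) (q : I) : ℝ := ∑ e ∈ tEdges N, pivot q (Wind N) e

theorem FT'_eq {N : ℕ} (hN : 1 ≤ N) (q : I) :
    FT' N q = (N : ℝ) ^ 2 * (sT q N false + sT q N true) := sum_pivot hN q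

/-- The influences are positive. -/
theorem sT_pos (hGL : GLTorus) (hBL : BlockLow) {c : ℝ} (hc : 0 < c) {N : ℕ} {q : I} {d : Bool}
    (hN : 64 ≤ N) (h1 : 1 / 4 ≤ (q : ℝ)) (h2 : (q : ℝ) ≤ 3 / 4) (hR : RSWreg c N q) :
    0 < sT q N d := by
  obtain ⟨C, hC, H⟩ := sum_a4 hGL hBL c hc
  have h3 := H N q d hN hR
  have h4 : (1 : ℝ) * a4 q 1 ≤ ∑ t ∈ Finset.Icc 1 N, (t : ℝ) * a4 q t := by
    have := Finset.single_le_sum (f := fun t : ℕ => (t : ℝ) * a4 q t)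
      (fun t _ => mul_nonneg (Nat.cast_nonneg t) (a4_nonneg q t))
      (Finset.mem_Icc.2 ⟨le_rfl, by omega⟩ : 1 ∈ Finset.Icc 1 N)
    simpa using this
  have h5 := a4_one q h1 h2
  have h6 : 0 < C * ((N : ℝ) ^ 2 * sT q N d) := by
    have : (0 : ℝ) < (1 / 4) ^ 24 := by positivity
    linarith
  have h7 : 0 < (N : ℝ) ^ 2 * sT q N d := by
    by_contra h
    push Not at h
    have := mul_nonpos_of_nonneg_of_nonpos hC.le h
    linarith
  have hN2 : (0 : ℝ) < (N : ℝ) ^ 2 := by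
    have : (0 : ℝ) < N := by exact_mod_cast (by omega : 0 < N)
    positivity
  exact (pos_iff_pos_of_mul_pos h7).1 hN2

/-- Second derivative against the square of the first one. -/
theorem second_le (hGL : GLTorus) (hBL : BlockLow) : ∀ c : ℝ, 0 < c → ∃ C : ℝ, 0 < C ∧
    ∀ (N : ℕ) (q : I), 64 ≤ N → 1 / 4 ≤ (q : ℝ) → (q : ℝ) ≤ 3 / 4 → RSWreg c N q →
      ∑ e ∈ tEdges N, ∑ f ∈ (tEdges N).erase e, Pr q (Joint (Wind N) e f) ≤
        C * FT' N q ^ 2 := by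
  intro c hc
  obtain ⟨C, hC, H⟩ := sum_joint_ctr hGL hBL c hc
  refine ⟨C, hC, fun N q hN h1 h2 hR => ?_⟩
  have hN1 : 1 ≤ N := by omega
  rw [sum_joint hN1, FT'_eq hN1]
  have ha := H N q false hN h1 h2 hR
  have hb := H N q true hN h1 h2 hR
  have hsa : 0 ≤ sT q N false := sT_nonneg q N false
  have hsb : 0 ≤ sT q N true := sT_nonneg q N true
  have hN2 : (0 : ℝ) ≤ (N : ℝ) ^ 2 := by positivity
  rw [Fintype.sum_bool]
  calc (N : ℝ) ^ 2 * (∑ f ∈ (tEdges N).erase (ctr N true), Pr q (Joint (Wind N) (ctr N true) f) +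
        ∑ f ∈ (tEdges N).erase (ctr N false), Pr q (Joint (Wind N) (ctr N false) f))
      ≤ (N : ℝ) ^ 2 * (C * ((N : ℝ) ^ 2 * sT q N true ^ 2) +
          C * ((N : ℝ) ^ 2 * sT q N false ^ 2)) :=
        mul_le_mul_of_nonneg_left (add_le_add hb ha) hN2
    _ = C * ((N : ℝ) ^ 2) ^ 2 * (sT q N false ^ 2 + sT q N true ^ 2) := by ring
    _ ≤ C * ((N : ℝ) ^ 2) ^ 2 * (sT q N false + sT q N true) ^ 2 := by
        apply mul_le_mul_of_nonneg_left _ (by positivity)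
        nlinarith [mul_nonneg hsa hsb]
    _ = C * ((N : ℝ) ^ 2 * (sT q N false + sT q N true)) ^ 2 := by ring

/-- Kesten's stability theorem on the torus. -/
theorem near_critical (hGL : GLTorus) (hBL : BlockLow) : ∀ c : ℝ, 0 < c → ∃ K : ℝ, 0 < K ∧
    ∀ (N : ℕ) (q₀ q₁ : I), 64 ≤ N → q₀ ≤ q₁ → 1 / 4 ≤ (q₀ : ℝ) → (q₁ : ℝ) ≤ 3 / 4 →
      (∀ q : I, q₀ ≤ q → q ≤ q₁ → RSWreg c N q) →
      FT' N q₁ ≤ K * FT' N q₀ ∧ FT' N q₀ ≤ K * FT' N q₁ := by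
  intro c hc
  obtain ⟨C, hC, H⟩ := second_le hGL hBL c hc
  refine ⟨Real.exp C, Real.exp_pos _, fun N q₀ q₁ hN h01 h0 h1 hR => ?_⟩
  have hN1 : 1 ≤ N := by omega
  have hloc := localOn_wind hN1
  have hmem : ∀ x ∈ Set.Icc (q₀ : ℝ) q₁, ∃ q : I, (q : ℝ) = x ∧ q₀ ≤ q ∧ q ≤ q₁ := by
    intro x hx
    exact ⟨⟨x, q₀.2.1.trans hx.1, hx.2.trans q₁.2.2⟩, rfl, hx.1, hx.2⟩
  have key := stability (F := PrR (tEdges N) (Wind N)) (F' := PrR' (tEdges N) (Wind N))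
    (F'' := fun x => if hx : x ∈ I then
      ∑ e ∈ tEdges N, ∑ f ∈ tEdges N, (pivot ⟨x, hx⟩ (upd (Wind N) e true) f -
        pivot ⟨x, hx⟩ (upd (Wind N) e false) f) else 0)
    (a := q₀) (b := q₁) (K := C) h01 hC.le ?_ ?_ ?_ ?_ ?_
  · rw [PrR'_eq hloc, PrR'_eq hloc] at key
    exact key
  · intro x hx
    obtain ⟨q, rfl, hq0, hq1⟩ := hmem x hx
    exact hasDerivAt_PrR_eq hloc q
  · intro x hx
    obtain ⟨q, rfl, hq0, hq1⟩ := hmem x hx
    have := hasDerivAt_PrR' hloc q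
    simp only [Subtype.coe_prop, dite_true, Subtype.coe_eta]
    exact this
  · intro x hx
    obtain ⟨q, rfl, hq0, hq1⟩ := hmem x hx
    rw [PrR'_eq hloc]
    have hq0' : 1 / 4 ≤ (q : ℝ) := h0.trans hq0
    have hq1' : (q : ℝ) ≤ 3 / 4 := le_trans hq1 h1
    have e := FT'_eq hN1 q
    unfold FT' at e
    rw [e]
    have p1 := sT_pos hGL hBL hc (d := false) hN hq0' hq1' (hR q hq0 hq1)
    have p2 := sT_pos hGL hBL hc (d := true) hN hq0' hq1' (hR q hq0 hq1)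
    have hN2 : (0 : ℝ) < (N : ℝ) ^ 2 := by
      have : (0 : ℝ) < N := by exact_mod_cast (by omega : 0 < N)
      positivity
    positivity
  · intro x hx
    obtain ⟨q, rfl, hq0, hq1⟩ := hmem x hx
    have hq0' : 1 / 4 ≤ (q : ℝ) := h0.trans hq0
    have hq1' : (q : ℝ) ≤ 3 / 4 := le_trans hq1 h1
    simp only [Subtype.coe_prop, dite_true, Subtype.coe_eta]
    rw [PrR'_eq hloc]
    refine (abs_second_le hloc (incr_wind N) q).trans ?_
    exact H N q hN hq0' hq1' (hR q hq0 hq1)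
  · intro x hx
    obtain ⟨q, rfl, hq0, hq1⟩ := hmem x hx
    rw [← Pr_eq_PrR hloc]
    exact ⟨Pr_nonneg, Pr_le_one⟩

/-- The derivative against the four-arm probability, upper bound. -/
theorem FT'_le {N r : ℕ} (hN : 1 ≤ N) (q : I) (hr : 1 ≤ r) (h : 2 * r + 2 ≤ N) :
    FT' N q ≤ 2 * (N : ℝ) ^ 2 * a4 q r := by
  rw [FT'_eq hN]
  have h1 := pivot_le_a4 q (ctr_mem hN false) hr h
  have h2 := pivot_le_a4 q (ctr_mem hN true) hr h
  have h3 : sT q N false + sT q N true ≤ 2 * a4 q r := by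
    unfold sT
    linarith
  calc (N : ℝ) ^ 2 * (sT q N false + sT q N true) ≤ (N : ℝ) ^ 2 * (2 * a4 q r) :=
        mul_le_mul_of_nonneg_left h3 (by positivity)
    _ = _ := by ring

/-- The derivative against the four-arm probability, lower bound. -/
theorem le_FT' (hGL : GLTorus) (hBL : BlockLow) : ∀ c : ℝ, 0 < c → ∃ C : ℝ, 0 < C ∧
    ∀ (N : ℕ) (q : I), 64 ≤ N → RSWreg c N q → (N : ℝ) ^ 2 * a4 q (N / 64) ≤ C * FT' N q := by
  intro c hc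
  obtain ⟨C, hC, H⟩ := a4_le_sT hGL hBL c hc
  refine ⟨C, hC, fun N q hN hR => ?_⟩
  rw [FT'_eq (by omega)]
  have h1 := H N q false hN hR
  have h2 := sT_nonneg q N true
  have h3 : a4 q (N / 64) ≤ C * (sT q N false + sT q N true) := by
    nlinarith
  calc (N : ℝ) ^ 2 * a4 q (N / 64) ≤ (N : ℝ) ^ 2 * (C * (sT q N false + sT q N true)) :=
        mul_le_mul_of_nonneg_left h3 (by positivity)
    _ = _ := by ring

/-- Change of the winding probability on a stable interval: two-sided bounds by the derivative at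
an arbitrary point of the interval. -/
theorem window (hGL : GLTorus) (hBL : BlockLow) : ∀ c : ℝ, 0 < c → ∃ K : ℝ, 0 < K ∧
    ∀ (N : ℕ) (q₀ q₁ : I), 64 ≤ N → q₀ ≤ q₁ → 1 / 4 ≤ (q₀ : ℝ) → (q₁ : ℝ) ≤ 3 / 4 →
      (∀ q : I, q₀ ≤ q → q ≤ q₁ → RSWreg c N q) →
      ((q₁ : ℝ) - q₀) * FT' N q₀ ≤ K * (Pr q₁ (Wind N) - Pr q₀ (Wind N)) ∧
      Pr q₁ (Wind N) - Pr q₀ (Wind N) ≤ K * (((q₁ : ℝ) - q₀) * FT' N q₀) := by
  intro c hc
  obtain ⟨K, hK, H⟩ := near_critical hGL hBL c hc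
  refine ⟨K, hK, fun N q₀ q₁ hN h01 h0 h1 hR => ?_⟩
  have hN1 : 1 ≤ N := by omega
  have hloc := localOn_wind hN1
  have h01' : (q₀ : ℝ) ≤ q₁ := h01
  have hder : ∀ q : I, q₀ ≤ q → q ≤ q₁ →
      HasDerivAt (PrR (tEdges N) (Wind N)) (FT' N q) (q : ℝ) := by
    intro q _ _
    exact hasDerivAt_PrR hloc q
  have hst : ∀ q : I, q₀ ≤ q → q ≤ q₁ → FT' N q ≤ K * FT' N q₀ ∧ FT' N q₀ ≤ K * FT' N q := by
    intro q hq0 hq1
    exact H N q₀ q hN hq0 h0 (le_trans (show (q : ℝ) ≤ q₁ from hq1) h1)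
      fun q' h2 h3 => hR q' h2 (h3.trans hq1)
  rw [Pr_eq_PrR hloc, Pr_eq_PrR hloc]
  have hmem : ∀ x ∈ Set.Icc (q₀ : ℝ) q₁, ∃ q : I, (q : ℝ) = x ∧ q₀ ≤ q ∧ q ≤ q₁ := by
    intro x hx
    exact ⟨⟨x, q₀.2.1.trans hx.1, hx.2.trans q₁.2.2⟩, rfl, hx.1, hx.2⟩
  have hcont : ContinuousOn (PrR (tEdges N) (Wind N)) (Set.Icc (q₀ : ℝ) q₁) := by
    intro x hx
    obtain ⟨q, rfl, hq0, hq1⟩ := hmem x hx
    exact (hder q hq0 hq1).continuousAt.continuousWithinAt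
  constructor
  · have h2 := Convex.mul_sub_le_image_sub_of_le_deriv (convex_Icc (q₀ : ℝ) q₁)
      (f := PrR (tEdges N) (Wind N)) hcont ?_ (C := FT' N q₀ / K) ?_ (q₀ : ℝ) ⟨le_rfl, h01'⟩
      (q₁ : ℝ) ⟨h01', le_rfl⟩ h01'
    · calc ((q₁ : ℝ) - q₀) * FT' N q₀ = K * (FT' N q₀ / K * ((q₁ : ℝ) - q₀)) := by
            field_simp
        _ ≤ _ := mul_le_mul_of_nonneg_left h2 hK.le
    · intro x hx
      rw [interior_Icc] at hx
      obtain ⟨q, rfl, hq0, hq1⟩ := hmem x ⟨hx.1.le, hx.2.le⟩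
      exact (hder q hq0 hq1).differentiableAt.differentiableWithinAt
    · intro x hx
      rw [interior_Icc] at hx
      obtain ⟨q, rfl, hq0, hq1⟩ := hmem x ⟨hx.1.le, hx.2.le⟩
      rw [(hder q hq0 hq1).deriv, div_le_iff₀ hK]
      linarith [(hst q hq0 hq1).2]
  · have h2 := Convex.image_sub_le_mul_sub_of_deriv_le (convex_Icc (q₀ : ℝ) q₁)
      (f := PrR (tEdges N) (Wind N)) hcont ?_ (C := K * FT' N q₀) ?_ (q₀ : ℝ) ⟨le_rfl, h01'⟩
      (q₁ : ℝ) ⟨h01', le_rfl⟩ h01'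
    · refine h2.trans (le_of_eq (by ring))
    · intro x hx
      rw [interior_Icc] at hx
      obtain ⟨q, rfl, hq0, hq1⟩ := hmem x ⟨hx.1.le, hx.2.le⟩
      exact (hder q hq0 hq1).differentiableAt.differentiableWithinAt
    · intro x hx
      rw [interior_Icc] at hx
      obtain ⟨q, rfl, hq0, hq1⟩ := hmem x ⟨hx.1.le, hx.2.le⟩
      rw [(hder q hq0 hq1).deriv]
      exact (hst q hq0 hq1).1

end Pool.Agent.H61.NC
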