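import Pool.Agent.H61.NC.Second
import Pool.Agent.H61.NC.Det

/-!
# Pairs of edges of the torus
-/

open MeasureTheory ProbabilityTheory unitInterval

namespace Pool.Agent.H61.NC

open Pool.Agent.H89.Perc

/-- Distance from an edge of the torus to the middle. -/
def dist0 (N : ℕ) (f : Edge) : ℕ := max (f.1 - mid N).natAbs (f.2.1 - mid N).natAbs

private lemma Pair_mem_eRect {a b c d : ℤ} {e : Edge} :
    e ∈ eRect a b c d ↔ (a ≤ e.1 ∧ e.1 ≤ b) ∧ (c ≤ e.2.1 ∧ e.2.1 ≤ d) := by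
  simp only [eRect, Finset.mem_product, Finset.mem_Icc, Finset.mem_univ, and_true]

private lemma Pair_mem_tEdges {N : ℕ} {e : Edge} :
    e ∈ tEdges N ↔ (0 ≤ e.1 ∧ e.1 < N) ∧ (0 ≤ e.2.1 ∧ e.2.1 < N) := by
  simp only [tEdges, Finset.mem_product, Finset.mem_Ico, Finset.mem_univ, and_true]

/-- The edges on which the four-arm event of `f` depends. -/
private noncomputable def PairS (N : ℕ) (f : Edge) (r : ℕ) : Finset Edge :=
  (eRect (f.1 - r) (f.1 + r) (f.2.1 - r) (f.2.1 + r)).image (modE N)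

private lemma Pair_modE {N : ℕ} {e : Edge} (he : e ∈ tEdges N) : modE N e = e := by
  rw [Pair_mem_tEdges] at he
  obtain ⟨x, y, t⟩ := e
  simp only at he
  simp only [modE]
  rw [Int.emod_eq_of_lt he.1.1 he.1.2, Int.emod_eq_of_lt he.2.1 he.2.2]

private lemma Pair_self {N : ℕ} {f : Edge} (hf : f ∈ tEdges N) (r : ℕ) : f ∈ PairS N f r := by
  unfold PairS
  rw [Finset.mem_image]
  refine ⟨f, ?_, Pair_modE hf⟩
  rw [Pair_mem_eRect]
  omega

private lemma Pair_ctr {N : ℕ} (hN : 1 ≤ N) (d : Bool) : ctr N d ∈ tEdges N := by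
  rw [Pair_mem_tEdges]
  simp only [ctr, mid]
  omega

private lemma Pair_one_dim {N ρ : ℕ} {x u v : ℤ} (hx0 : 0 ≤ x) (hxN : x < N)
    (hu : (N : ℤ) / 2 - ρ ≤ u ∧ u ≤ (N : ℤ) / 2 + ρ) (hv : x - ρ ≤ v ∧ v ≤ x + ρ)
    (h : u % (N : ℤ) = v % N) : (x - (N : ℤ) / 2).natAbs ≤ 2 * ρ := by
  have h1 : (N : ℤ) ∣ v - u := by
    have h2 : u ≡ v [ZMOD N] := h
    exact h2.dvd
  obtain ⟨k, hk⟩ := h1
  rcases lt_trichotomy k 0 with h3 | h3 | h3
  · have h4 : (N : ℤ) * k ≤ -N := by nlinarith [Int.natCast_nonneg N]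
    omega
  · subst h3
    rw [mul_zero] at hk
    omega
  · have h4 : (N : ℤ) ≤ N * k := by nlinarith [Int.natCast_nonneg N]
    omega

private lemma Pair_disj {N ρ : ℕ} {d : Bool} {f : Edge} (hf : f ∈ tEdges N)
    (h2 : 2 * ρ < dist0 N f) : Disjoint (PairS N (ctr N d) ρ) (PairS N f ρ) := by
  rw [Finset.disjoint_left]
  intro x hx hx'
  unfold PairS at hx hx'
  rw [Finset.mem_image] at hx hx'
  obtain ⟨e1, he1, hx1⟩ := hx
  obtain ⟨e2, he2, hx2⟩ := hx'
  rw [Pair_mem_eRect] at he1 he2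
  rw [Pair_mem_tEdges] at hf
  have h3 : modE N e1 = modE N e2 := hx1.trans hx2.symm
  simp only [modE, Prod.mk.injEq] at h3
  simp only [ctr, mid] at he1
  unfold dist0 at h2
  simp only [mid] at h2
  have g1 := Pair_one_dim hf.1.1 hf.1.2 he1.1 he2.1 h3.1
  have g2 := Pair_one_dim hf.2.1 hf.2.2 he1.2 he2.2 h3.2.1
  rcases lt_max_iff.1 h2 with h | h
  · omega
  · omega

private lemma Pair_sub {N ρ R : ℕ} {f : Edge} (h3 : dist0 N f + ρ ≤ R) (h4 : 2 * R + 2 ≤ N) :
    PairS N f ρ ⊆ blk N R := by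
  intro x hx
  unfold PairS at hx
  rw [Finset.mem_image] at hx
  obtain ⟨e, he, hx1⟩ := hx
  rw [Pair_mem_eRect] at he
  unfold dist0 mid at h3
  have h5 : (f.1 - (N : ℤ) / 2).natAbs + ρ ≤ R := by
    have := le_max_left (f.1 - (N : ℤ) / 2).natAbs (f.2.1 - (N : ℤ) / 2).natAbs
    omega
  have h6 : (f.2.1 - (N : ℤ) / 2).natAbs + ρ ≤ R := by
    have := le_max_right (f.1 - (N : ℤ) / 2).natAbs (f.2.1 - (N : ℤ) / 2).natAbs
    omega
  have h7 : e ∈ tEdges N := by
    rw [Pair_mem_tEdges]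
    omega
  rw [Pair_modE h7] at hx1
  rw [← hx1]
  unfold blk mid
  rw [Pair_mem_eRect]
  omega

private lemma Pair_dist_ctr (N : ℕ) (d : Bool) : dist0 N (ctr N d) = 0 := by
  simp [dist0, ctr]

private lemma Pair_fill_mem {s : Finset Edge} {b : Bool} {ω : Config} {e : Edge} (h : e ∈ s) :
    fill s b ω e = b := by
  classical
  unfold fill
  rw [if_pos h]

private lemma Pair_fill_notMem {s : Finset Edge} {b : Bool} {ω : Config} {e : Edge}
    (h : e ∉ s) : fill s b ω e = ω e := by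
  classical
  unfold fill
  rw [if_neg h]

/-- The block event depends only on the edges outside the block. -/
theorem localOn_BlockPiv {N : ℕ} (hN : 1 ≤ N) (R : ℕ) :
    LocalOn (tEdges N \ blk N R) (BlockPiv N R) := by
  intro ω ω' h hω
  have key : ∀ b, ∀ e ∈ tEdges N, fill (blk N R) b ω e = fill (blk N R) b ω' e := by
    intro b e he
    by_cases hb : e ∈ blk N R
    · rw [Pair_fill_mem hb, Pair_fill_mem hb]
    · rw [Pair_fill_notMem hb, Pair_fill_notMem hb]
      exact h e (Finset.mem_sdiff.2 ⟨he, hb⟩)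
  exact ⟨localOn_wind hN _ _ (key true) hω.1,
    fun h' => hω.2 (localOn_wind hN _ _ (fun e he => (key false e he).symm) h')⟩

private lemma Pair_ne {N ρ : ℕ} {d : Bool} {f : Edge} (h2 : 2 * ρ < dist0 N f) :
    ctr N d ≠ f := by
  rintro rfl
  rw [Pair_dist_ctr] at h2
  omega

private lemma Pair_localS (N : ℕ) (f : Edge) (r : ℕ) : LocalOn (PairS N f r) (A4T N f r) :=
  localOn_A4T N f r

/-- On the joint event both edges have four arms. -/
private lemma Pair_joint_sub {N ρ : ℕ} {d : Bool} {f : Edge} (hf : f ∈ tEdges N)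
    (h1 : 1 ≤ ρ) (h2 : 2 * ρ < dist0 N f) (h3 : 2 * ρ + 2 ≤ N) :
    Joint (Wind N) (ctr N d) f ⊆ A4T N (ctr N d) ρ ∩ A4T N f ρ := by
  intro ω hω
  have hc : ctr N d ∈ tEdges N := Pair_ctr (by omega) d
  have hdis := Pair_disj (d := d) hf h2
  obtain ⟨⟨b, hb1, hb2⟩, ⟨b', hb1', hb2'⟩⟩ := Joint_piv (incr_wind N) (Pair_ne h2) hω
  constructor
  · have g := A4T_of_pivot hc h1 h3 hb1 hb2
    refine Pair_localS N (ctr N d) ρ _ _ (fun e he => ?_) g
    rw [Function.update_of_ne]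
    rintro rfl
    exact Finset.disjoint_left.1 hdis he (Pair_self hf ρ)
  · have g := A4T_of_pivot hf h1 h3 hb1' hb2'
    refine Pair_localS N f ρ _ _ (fun e he => ?_) g
    rw [Function.update_of_ne]
    rintro rfl
    exact Finset.disjoint_left.1 hdis (Pair_self hc ρ) he

/-- On the joint event a block which contains both edges is pivotal. -/
private lemma Pair_joint_blk {N R : ℕ} {e f : Edge} (hef : e ≠ f) (he : e ∈ blk N R)
    (hf : f ∈ blk N R) : Joint (Wind N) e f ⊆ BlockPiv N R := by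
  intro ω hω
  obtain ⟨⟨b, hb1, hb2⟩, -⟩ := Joint_piv (incr_wind N) hef hω
  constructor
  · refine incr_wind N _ _ (fun x hx => ?_) hb1
    by_cases hxb : x ∈ blk N R
    · exact Pair_fill_mem hxb
    · rw [Pair_fill_notMem hxb]
      have n1 : x ≠ e := by
        rintro rfl
        exact hxb he
      have n2 : x ≠ f := by
        rintro rfl
        exact hxb hf
      rwa [Function.update_of_ne n1, Function.update_of_ne n2] at hx
  · intro h
    refine hb2 (incr_wind N _ _ (fun x hx => ?_) h)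
    by_cases hxb : x ∈ blk N R
    · rw [Pair_fill_mem hxb] at hx
      exact absurd hx (by decide)
    · rw [Pair_fill_notMem hxb] at hx
      have n1 : x ≠ e := by
        rintro rfl
        exact hxb he
      have n2 : x ≠ f := by
        rintro rfl
        exact hxb hf
      rwa [Function.update_of_ne n1, Function.update_of_ne n2]


private lemma Pair_prob (q : I) {N ρ : ℕ} {d : Bool} {f : Edge} (hf : f ∈ tEdges N)
    (h2 : 2 * ρ < dist0 N f) (h3 : 2 * ρ + 2 ≤ N) :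
    Pr q (A4T N (ctr N d) ρ ∩ A4T N f ρ) = a4 q ρ ^ 2 := by
  rw [Pr_inter_of_disjoint (Pair_localS N _ ρ) (Pair_localS N _ ρ) (Pair_disj hf h2),
    Pr_A4T q (Pair_ctr (by omega) d) (by omega), Pr_A4T q hf (by omega), sq]

theorem Pr_joint_near (q : I) {N ρ R : ℕ} {d : Bool} {f : Edge} (hf : f ∈ tEdges N)
    (h1 : 1 ≤ ρ) (h2 : 2 * ρ < dist0 N f) (h3 : dist0 N f + ρ ≤ R) (h4 : 2 * R + 2 ≤ N) :
    Pr q (Joint (Wind N) (ctr N d) f) ≤ a4 q ρ ^ 2 * Pr q (BlockPiv N R) := by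
  have hρ : 2 * ρ + 2 ≤ N := by omega
  have s1 : PairS N f ρ ⊆ blk N R := Pair_sub h3 h4
  have s2 : PairS N (ctr N d) ρ ⊆ blk N R := Pair_sub (by rw [Pair_dist_ctr]; omega) h4
  have hc : ctr N d ∈ tEdges N := Pair_ctr (by omega) d
  have hsub : Joint (Wind N) (ctr N d) f ⊆
      (A4T N (ctr N d) ρ ∩ A4T N f ρ) ∩ BlockPiv N R :=
    Set.subset_inter (Pair_joint_sub hf h1 h2 hρ)
      (Pair_joint_blk (Pair_ne h2) (s2 (Pair_self hc ρ)) (s1 (Pair_self hf ρ)))
  refine (Pr_mono hsub).trans ?_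
  rw [Pr_inter_of_disjoint (LocalOn.inter' (Pair_localS N (ctr N d) ρ) (Pair_localS N f ρ))
    (localOn_BlockPiv (by omega) R) ?_, Pair_prob q hf h2 hρ]
  rw [Finset.disjoint_left]
  intro x hx hx'
  rw [Finset.mem_sdiff] at hx'
  rcases Finset.mem_union.1 hx with h | h
  · exact hx'.2 (s2 h)
  · exact hx'.2 (s1 h)

theorem Pr_joint_far (q : I) {N ρ : ℕ} {d : Bool} {f : Edge} (hf : f ∈ tEdges N)
    (h1 : 1 ≤ ρ) (h2 : 2 * ρ < dist0 N f) (h3 : 2 * ρ + 2 ≤ N) :
    Pr q (Joint (Wind N) (ctr N d) f) ≤ a4 q ρ ^ 2 :=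
  (Pr_mono (Pair_joint_sub hf h1 h2 h3)).trans (Pair_prob q hf h2 h3).le

/-- The influence of an edge is bounded by the four-arm probability. -/
theorem pivot_le_a4 (q : I) {N r : ℕ} {e : Edge} (he : e ∈ tEdges N) (hr : 1 ≤ r)
    (hN : 2 * r + 2 ≤ N) : pivot q (Wind N) e ≤ a4 q r := by
  rw [← Pr_A4T q he (show 2 * r < N by omega)]
  unfold pivot
  have h1 : {ω : Config | Function.update ω e true ∈ Wind N} ⊆
      A4T N e r ∪ {ω : Config | Function.update ω e false ∈ Wind N} := by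
    intro ω hω
    by_cases h : Function.update ω e false ∈ Wind N
    · exact Or.inr h
    · exact Or.inl (A4T_of_pivot he hr hN hω h)
  have h2 := (Pr_mono (p := q) h1).trans Pr_union_le
  linarith

end Pool.Agent.H61.NC
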